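import Pool.Agent.H435.PC.Scale
import Pool.Graph.R_pool_sql_team_seeded_63374d34.N126.RC.FinCover

/-!
Rational and integral points on finite coverings ramified over generic hypersurfaces: the points
which are not over the hypersurfaces.
-/

set_option autoImplicit false

open MvPolynomial Pool.Agent.W602.GT Pool.Agent.TH145.GH
open Pool.Agent.TH145.MG (DimLE)
open Pool.Agent.TH145.GD (St deg_St)

namespace Pool.Agent.H435.PC

open Pool.Agent.N126.RC (wts FiniteOver Over Generic full_systems fibre_finite x_ne_zero eval_scale)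

section numbers

variable {A : Type} [Fintype A] [DecidableEq A] {m : ℕ} {d β : A → ℕ} {C R : Finset A}

theorem num_cond (hCR : Disjoint C R) {N : ℕ} (hN : 0 < N)
    (hd : (2 * m + 1 : ℚ) < ∑ a ∈ C, ((d a : ℚ) + 1) + ∑ a ∈ R, (d a : ℚ) * (1 - β a / N) +
      ∑ a ∈ (C ∪ R)ᶜ, (d a : ℚ)) {b : A → ℕ} (hb : ∀ a ∈ R, b a = β a) (hb0 : ∀ a, a ∉ R → b a = 0) :
    N * (2 * m + 1) + ∑ a ∈ Cᶜ, b a * d a < N * (∑ a, d a + C.card) := by
  have h0 : (0 : ℚ) < N := by exact_mod_cast hN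
  have h1 : ∑ a ∈ Cᶜ, b a * d a = ∑ a ∈ R, β a * d a := by
    have h2 : R ⊆ Cᶜ := fun a ha => Finset.mem_compl.2 (Finset.disjoint_right.1 hCR ha)
    rw [← Finset.sum_subset h2 fun a _ ha => by rw [hb0 a ha, zero_mul]]
    exact Finset.sum_congr rfl fun a ha => by rw [hb a ha]
  have h2 : ∑ a ∈ R, (d a : ℚ) * (1 - β a / N) = ∑ a ∈ R, (d a : ℚ) -
      (∑ a ∈ R, (β a : ℚ) * d a) / N := by
    rw [Finset.sum_div, ← Finset.sum_sub_distrib]
    exact Finset.sum_congr rfl fun a _ => by ring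
  have h5 : ∑ a ∈ C, ((d a : ℚ) + 1) = ∑ a ∈ C, (d a : ℚ) + C.card := by
    rw [Finset.sum_add_distrib]
    simp
  have h6 : ∑ a ∈ C, (d a : ℚ) + ∑ a ∈ R, (d a : ℚ) + ∑ a ∈ (C ∪ R)ᶜ, (d a : ℚ) =
      ∑ a, (d a : ℚ) := by
    rw [← Finset.sum_union hCR]
    exact Finset.sum_add_sum_compl (C ∪ R) _
  rw [h2, h5] at hd
  have h7 : (2 * m + 1 : ℚ) + (∑ a ∈ R, (β a : ℚ) * d a) / N < ∑ a, (d a : ℚ) + C.card := by
    linarith
  have h9 := mul_lt_mul_of_pos_left h7 h0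
  rw [mul_add, mul_div_cancel₀ _ h0.ne'] at h9
  rw [h1]
  exact_mod_cast h9

end numbers

variable {k0 K : Type} [Field k0] [Field K] [Algebra k0 K] {n m : ℕ} {A : Type} {d β : A → ℕ}

/-- Finiteness of the points of the covering. -/
theorem fin_cover [IsAlgClosed K] [CharZero K] [IsAlgClosed k0] [Fintype A] [DecidableEq A]
    (C R : Finset A) (hCR : Disjoint C R) {N : ℕ} (hN : 0 < N)
    (hd : (2 * m + 1 : ℚ) < ∑ a ∈ C, ((d a : ℚ) + 1) + ∑ a ∈ R, (d a : ℚ) * (1 - β a / N) +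
      ∑ a ∈ (C ∪ R)ᶜ, (d a : ℚ))
    (V : Set (MvPolynomial (Fin (n + 1)) k0))
    (hV : DimLE k0 V m) {F : A → MvPolynomial (Fin (n + 1)) K} (hF : Generic k0 d F)
    {W ι : Type} [Finite W] [Finite ι] (e : W → ℕ) (he : ∀ w, 0 < e w)
    (G : ι → MvPolynomial (Fin (n + 1) ⊕ W) K)
    (hGh : ∀ i, ∃ c, (G i).IsWeightedHomogeneous (wts e) c) (hfo : FiniteOver G)
    (hov : Over V F C G) (hram : RamifiedOverAll G F R β N)
    (T : Finset K) :
    ∃ S : Finset (Fin (n + 1) ⊕ W → K), ∀ z : Fin (n + 1) ⊕ W → K, z ≠ 0 →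
      (∀ i, eval z (G i) = 0) → (∀ v, z v ∈ IntermediateField.adjoin k0 (T : Set K)) →
      (∀ a ∈ R, eval (fun j => z (Sum.inl j)) (F a) ≠ 0) →
      (∀ a, a ∉ C → a ∉ R → eval (fun j => z (Sum.inl j)) (F a) ≠ 0 ∧
        ∀ j, z (Sum.inl j) ^ d a / eval (fun j => z (Sum.inl j)) (F a) ∈
          Subring.closure (Set.range (algebraMap k0 K) ∪ (T : Set K))) →
      ∃ s ∈ S, ∃ t : K, ∀ v, z v = t ^ wts e v * s v := by
  classical
  have hFh := hF.1
  have hCR' : ∀ a ∈ R, a ∉ C := fun a ha => Finset.disjoint_right.1 hCR ha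
  obtain ⟨b, hb, hb0⟩ : ∃ b : A → ℕ, (∀ a ∈ R, b a = β a) ∧ ∀ a, a ∉ R → b a = 0 :=
    ⟨fun a => if a ∈ R then β a else 0, fun a ha => if_pos ha, fun a ha => if_neg ha⟩
  obtain ⟨hft, P, cf, j0, hP, hSt, h0, hind, hFP⟩ := full_systems hF
  have hram' : Ram2 G (∏ a ∈ R, F a) (∏ a ∈ R, F a ^ b a) N := by
    have h1 := ram_of_all G F R β N hram
    have h2 : ∏ a ∈ R, F a ^ b a = ∏ a ∈ R, F a ^ β a :=
      Finset.prod_congr rfl fun a ha => by rw [hb a ha]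
    rwa [h2]
  have hfin := fun (c : Fin (n + 1)) =>
    fin_points' (N := N) (m := m) (β := b) C R (by
      have h5 := num_cond hCR hN hd hb hb0
      have h6 : ∀ S : Finset A, (∀ a, a ∈ S ↔ a ∉ C) → N * (2 * m + 1) +
          ∑ a ∈ S, b a * d a < N * (∑ a, d a + C.card) := by
        intro S hS
        have h7 : S = Cᶜ := by
          ext a
          rw [hS, Finset.mem_compl]
        rw [h7]
        exact h5
      exact h6 _ fun a => by simp) hCR' hb0 V hV P hP c (hSt c) cf j0 h0 hind hFP e G hGh hfo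
      hram' T
  have hfin2 : (⋃ (c : Fin (n + 1)), ⋃ x ∈ {x : Fin (n + 1) → K |
      (∀ j, x j ∈ IntermediateField.adjoin k0 (T : Set K)) ∧ x c = 1 ∧
      (∀ f ∈ V, aeval x f = 0) ∧ (∀ a ∈ C, eval x (F a) = 0) ∧
      (∀ a, a ∉ C → eval x (F a) ≠ 0) ∧
      (∀ a, a ∉ C → a ∉ R → ∀ j, x j ^ d a / eval x (F a) ∈
        Subring.closure (Set.range (algebraMap k0 K) ∪ (T : Set K))) ∧
      ∃ u : W → K, (∀ w, u w ∈ IntermediateField.adjoin k0 (T : Set K)) ∧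
        ∀ i, eval (Sum.elim x u) (G i) = 0},
      {z : Fin (n + 1) ⊕ W → K | (∀ i, eval z (G i) = 0) ∧
        ∀ j, z (Sum.inl j) = x j}).Finite := by
    refine Set.finite_iUnion fun c => ?_
    exact Set.Finite.biUnion (hfin c) fun x _ => fibre_finite hfo x
  refine ⟨hfin2.toFinset, fun z hz hzG hzT hzR hzi => ?_⟩
  obtain ⟨c, hc⟩ := x_ne_zero he hGh hfo hz hzG
  have hzx := hov z hzG
  have hzn : ∀ a, a ∉ C → eval (fun j => z (Sum.inl j)) (F a) ≠ 0 := fun a ha => by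
    by_cases haR : a ∈ R
    · exact hzR a haR
    · exact (hzi a ha haR).1
  obtain ⟨t, ht⟩ : ∃ t, t = z (Sum.inl c) := ⟨_, rfl⟩
  rw [← ht] at hc
  have hzG' : ∀ i, eval (fun v => t⁻¹ ^ wts e v * z v) (G i) = 0 := by
    intro i
    obtain ⟨c', hc'⟩ := hGh i
    rw [eval_scale hc', hzG i, mul_zero]
  have hzov := hov _ hzG'
  have hxe : (fun j : Fin (n + 1) => t⁻¹ ^ wts e (Sum.inl j : Fin (n + 1) ⊕ W) * z (Sum.inl j)) =
      t⁻¹ • fun j => z (Sum.inl j) := by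
    funext j
    change t⁻¹ ^ 1 * z (Sum.inl j) = t⁻¹ * z (Sum.inl j)
    rw [pow_one]
  have htT : t⁻¹ ∈ IntermediateField.adjoin k0 (T : Set K) := inv_mem (ht ▸ hzT (Sum.inl c))
  refine ⟨fun v => t⁻¹ ^ wts e v * z v, ?_, t, fun v => ?_⟩
  · rw [Set.Finite.mem_toFinset, Set.mem_iUnion]
    refine ⟨c, ?_⟩
    rw [Set.mem_iUnion₂]
    refine ⟨t⁻¹ • fun j => z (Sum.inl j), ⟨fun j => ?_, ?_, ?_, fun a ha => ?_, fun a ha => ?_,
      fun a ha hqa j => ?_, fun w => t⁻¹ ^ e w * z (Sum.inr w), fun w => ?_,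
      fun i => ?_⟩, hzG', fun j => ?_⟩
    · exact mul_mem htT (hzT _)
    · change t⁻¹ * z (Sum.inl c) = 1
      rw [← ht, inv_mul_cancel₀ hc]
    · rw [← hxe]
      exact hzov.1
    · rw [eval_smul_hom (hFh a), hzx.2 a ha, mul_zero]
    · rw [eval_smul_hom (hFh a)]
      exact mul_ne_zero (pow_ne_zero _ (inv_ne_zero hc)) (hzn a ha)
    · have h3 : (t⁻¹ • fun j => z (Sum.inl j)) j ^ d a /
          eval (t⁻¹ • fun j => z (Sum.inl j)) (F a) =
          z (Sum.inl j) ^ d a / eval (fun j => z (Sum.inl j)) (F a) := by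
        rw [eval_smul_hom (hFh a), Pi.smul_apply, smul_eq_mul, mul_pow,
          mul_div_mul_left _ _ (pow_ne_zero _ (inv_ne_zero hc))]
      rw [h3]
      exact (hzi a ha hqa).2 j
    · exact mul_mem (pow_mem htT _) (hzT _)
    · have h3 : Sum.elim (t⁻¹ • fun j => z (Sum.inl j))
          (fun w => t⁻¹ ^ e w * z (Sum.inr w)) = fun v => t⁻¹ ^ wts e v * z v := by
        funext v
        rcases v with j | w
        · exact (congrFun hxe j).symm
        · rfl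
      rw [h3]
      exact hzG' i
    · exact congrFun hxe j
  · rw [← mul_assoc, ← mul_pow, mul_inv_cancel₀ hc, one_pow, one_mul]

end Pool.Agent.H435.PC
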