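import Pool.Agent.H435.PC.Loss
import Pool.Graph.R_seed8.TH145.GD.Ineq

/-!
The height inequality with the total loss.
-/

set_option autoImplicit false

open MvPolynomial FF Pool.Agent.W603.LV Pool.Agent.W603.PV Pool.Agent.TH145.GH
open Pool.Agent.TH145.GC (Ev dF_sub dF_self ord_prod exists_minor)
open Pool.Agent.TH145.GD

namespace Pool.Agent.H435.PC

variable {k K : Type} [Field k] [Field K] [Algebra k K]

section

variable {n : ℕ} {A : Type} {c0 : Fin (n + 1)} {F : A → MvPolynomial (Fin (n + 1)) K}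
    {dg : A → ℕ} {D : A → (Fin (n + 1) →₀ ℕ) → Derivation ℤ K K} {e : Place k K → ℤ}

open scoped Classical in
/-- The local inequality at a place of good reduction. -/
theorem local_est1 (hdat : Data k c0 F dg D e) [Fintype A] (P : Place k K) (heP : e P = 0)
    {x : Fin (n + 1) → K} (he0 : x c0 ≠ 0)
    {b : Finset (Option (Ti n A) ⊕ A)} (hb : Sum.inl none ∈ b) (σ : b → Fin (n + 1))
    (hspan : Submodule.span K (Set.range (wv c0 dg D x)) ≤
        Submodule.span K (wv c0 dg D x '' {o | Sum.inl o ∈ b}))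
    (hcard : Module.finrank K (Full c0 dg D x) = b.card)
    (hdet : (mx c0 dg D x (fun a => Finsupp.single c0 (dg a)) b σ).det ≠ 0)
    (hG : ∀ a, Sum.inr a ∉ b → eval x (F a) ≠ 0) :
    ((∑ i ∈ b, rd i : ℕ) - (∑ a, dg a : ℕ)) * pord P x -
      (if ∃ a, Sum.inr a ∉ b ∧ 0 < P.ord (eval x (F a)) - dg a * pord P x then 1 else 0) ≤
      P.ord ((mx c0 dg D x (fun a => Finsupp.single c0 (dg a)) b σ).det /
        ∏ a, if Sum.inr a ∈ b then x c0 ^ dg a else eval x (F a)) := by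
  have hx0 : x ≠ 0 := by
    rintro rfl
    exact he0 rfl
  obtain ⟨lam, x', hlam, hlamP, hxx, hx', e1, he1⟩ := exists_scaled P hx0
  have hdeg : ∀ a, Finsupp.single e1 (dg a) ∈ St c0 (dg a) := fun a => single_mem _
  have hG1 : ∀ a, eval x (F a) = lam ^ dg a * eval x' (F a) := fun a => by
    rw [hxx, eval_smul_hom (hdat.hom a)]
  have hG' : ∀ a, Sum.inr a ∉ b → eval x' (F a) ≠ 0 := fun a ha h0 => by
    apply hG a ha
    rw [hG1, h0, mul_zero]
  obtain ⟨dx, hdx⟩ : ∃ dx, dx = (mx c0 dg D x (fun a => Finsupp.single c0 (dg a)) b σ).det :=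
    ⟨_, rfl⟩
  obtain ⟨dx', hdx'⟩ : ∃ dx', dx' = (mx c0 dg D x' (fun a => Finsupp.single e1 (dg a)) b σ).det :=
    ⟨_, rfl⟩
  have h1 := det_change he0 σ hspan (fun a => Finsupp.single e1 (dg a)) hdeg
  have h2 := det_lam (c0 := c0) (dg := dg) (D := D) (x := x') lam hb σ
    (fun a => Finsupp.single e1 (dg a))
  rw [← hxx, ← hdx'] at h2
  rw [← hdx, h2] at h1
  have hmon : ∀ a, mon x (Finsupp.single e1 (dg a)) = lam ^ dg a := fun a => by
    rw [mon_single, hxx, Pi.smul_apply, he1, smul_eq_mul, mul_one]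
  simp only [hmon] at h1
  rw [← hdx] at hdet ⊢
  obtain ⟨Z, hZ⟩ : ∃ Z, Z = ∏ a, if Sum.inr a ∈ b then x c0 ^ dg a else eval x (F a) := ⟨_, rfl⟩
  have hZ0 : Z ≠ 0 := by
    rw [hZ]
    refine Finset.prod_ne_zero_iff.2 fun a _ => ?_
    split_ifs with ha
    · exact pow_ne_zero _ he0
    · exact hG a ha
  rw [← hZ]
  -- the main identity
  obtain ⟨Y, hY⟩ : ∃ Y, Y = ∏ a ∈ Finset.univ.filter (fun a => Sum.inr a ∉ b), eval x' (F a) :=
    ⟨_, rfl⟩
  have hY0 : Y ≠ 0 := by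
    rw [hY]
    exact Finset.prod_ne_zero_iff.2 fun a ha => hG' a (Finset.mem_filter.1 ha).2
  have h3 : (∏ a, if Sum.inr a ∈ b then lam ^ dg a / x c0 ^ dg a else 1) * Z =
      lam ^ (∑ a, dg a) * Y := by
    rw [hZ, hY, ← Finset.prod_pow_eq_pow_sum, Finset.prod_filter, ← Finset.prod_mul_distrib,
      ← Finset.prod_mul_distrib]
    refine Finset.prod_congr rfl fun a _ => ?_
    by_cases ha : Sum.inr a ∈ b
    · simp only [ha, if_true, not_true_eq_false, if_false, mul_one]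
      rw [div_mul_cancel₀ _ (pow_ne_zero _ he0)]
    · simp only [ha, if_false, not_false_eq_true, if_true, one_mul]
      exact hG1 a
  have h4 : lam ^ (∑ i ∈ b, rd i) * dx' = dx / Z * (lam ^ (∑ a, dg a) * Y) := by
    rw [h1, ← h3]
    field_simp
  have hlp : ∀ m : ℕ, lam ^ m ≠ 0 := fun m => pow_ne_zero _ hlam
  have hq0 : dx / Z ≠ 0 := div_ne_zero hdet hZ0
  have hdx'0 : dx' ≠ 0 := by
    intro h0
    rw [h0, mul_zero] at h4
    exact mul_ne_zero hq0 (mul_ne_zero (hlp _) hY0) h4.symm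
  have h5 := congrArg P.ord h4
  rw [P.ord_mul (hlp _) hdx'0, P.ord_mul hq0 (mul_ne_zero (hlp _) hY0),
    P.ord_mul (hlp _) hY0, P.ord_pow, P.ord_pow, hlamP] at h5
  have h6 : P.ord Y = ∑ a ∈ Finset.univ.filter (fun a => Sum.inr a ∉ b),
      P.ord (eval x' (F a)) := by
    rw [hY]
    exact ord_prod P _ _ fun a ha => hG' a (Finset.mem_filter.1 ha).2
  have h7 := ord_det1 hdat P heP hx' he1 σ (by
    rw [← hcard, hxx, full_scale_eq x' hlam]) (by rw [← hdx']; exact hdx'0) hG'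
  have h8 : ∀ a, Sum.inr a ∉ b → P.ord (eval x (F a)) - dg a * pord P x =
      P.ord (eval x' (F a)) := by
    intro a ha
    rw [hG1, P.ord_mul (hlp _) (hG' a ha), P.ord_pow, hlamP]
    ring
  have h9 : (∃ a, Sum.inr a ∉ b ∧ 0 < P.ord (eval x (F a)) - dg a * pord P x) ↔
      ∃ a, Sum.inr a ∉ b ∧ 0 < P.ord (eval x' (F a)) := by
    constructor
    · rintro ⟨a, ha, h⟩
      exact ⟨a, ha, by rwa [h8 a ha] at h⟩
    · rintro ⟨a, ha, h⟩
      exact ⟨a, ha, by rwa [h8 a ha]⟩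
  rw [← hdx', ← h6] at h7
  have h10 : (if ∃ a, Sum.inr a ∉ b ∧ 0 < P.ord (eval x (F a)) - dg a * pord P x then (1 : ℤ)
      else 0) = if ∃ a, Sum.inr a ∉ b ∧ 0 < P.ord (eval x' (F a)) then 1 else 0 := by
    simp only [h9]
  rw [sub_mul, h10]
  linarith

variable [IsAlgClosed k] [CharZero k] [IsFF k K]

open scoped Classical in
/-- The height inequality. -/
theorem ineq1 (hdat : Data k c0 F dg D e) [Fintype A] {m : ℕ} {C : Finset A} {N : ℕ}
    {β : A → ℕ}
    (hdim : N * (2 * m + 1) + ∑ a ∈ Finset.univ.filter (fun a => a ∉ C), β a * dg a <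
      N * (∑ a, dg a + C.card))
    {x : Fin (n + 1) → K} (hx0 : x c0 ≠ 0)
    (hrk : Module.finrank K (Full c0 dg D x) ≤ m + 1)
    (hC : ∀ a ∈ C, eval x (F a) = 0) (hCn : ∀ a, a ∉ C → eval x (F a) ≠ 0)
    {w : Place k K → ℤ} (hw : {P | w P ≠ 0}.Finite)
    (hP : ∀ P : Place k K,
      (e P = 0 ∧ N * (if ∃ a, a ∉ C ∧ 0 < P.ord (eval x (F a)) - dg a * pord P x then 1 else 0) ≤
        ∑ a ∈ Finset.univ.filter (fun a => a ∉ C),
          (β a : ℤ) * (P.ord (eval x (F a)) - dg a * pord P x) + w P) ∨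
      ∃ r : ℤ, 0 ≤ r ∧
      (∀ f, f ≠ 0 → ∀ a, ∀ I ∈ St c0 (dg a), Ge P (P.ord f - r) (D a I f)) ∧
      N * (∑ a ∈ Finset.univ.filter (fun a => a ∉ C),
        if 0 < P.ord (eval x (F a)) - dg a * pord P x then r else 0) ≤
        ∑ a ∈ Finset.univ.filter (fun a => a ∉ C),
          (β a : ℤ) * (P.ord (eval x (F a)) - dg a * pord P x) + w P) :
    pht k x ≤ ∑ᶠ P, (N * ((n + 1) * e P) + w P) := by
  have hx00 : x ≠ 0 := by
    rintro rfl
    exact hx0 rfl
  obtain ⟨b, hb0, hbC, hbi, hspan, hcard⟩ := exists_rows hdat.hom hdat.dual hx0 hC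
  obtain ⟨σ, hσ⟩ := exists_minor _ hbi
  have hdet : (mx c0 dg D x (fun a => Finsupp.single c0 (dg a)) b σ).det ≠ 0 := by
    unfold mx
    convert hσ
  have hG : ∀ a, Sum.inr a ∉ b → a ∉ C := fun a ha hac => ha (hbC a hac)
  have hrd : ∑ i ∈ b, rd i + C.card + 1 ≤ 2 * b.card := by
    obtain ⟨b', hb'⟩ : ∃ b' : Finset (Option (Ti n A) ⊕ A), b' = insert (Sum.inl none)
      (C.image Sum.inr) := ⟨_, rfl⟩
    have h1 : b' ⊆ b := by
      rw [hb']
      intro i hi
      rcases Finset.mem_insert.1 hi with rfl | hi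
      · exact hb0
      · obtain ⟨a, ha, rfl⟩ := Finset.mem_image.1 hi
        exact hbC a ha
    have h2 : b'.card = C.card + 1 := by
      rw [hb', Finset.card_insert_of_notMem (by simp), Finset.card_image_of_injective _
        Sum.inr_injective]
    have h3 : ∑ i ∈ b', rd i = b'.card := by
      rw [Finset.card_eq_sum_ones]
      refine Finset.sum_congr rfl fun i hi => ?_
      rw [hb'] at hi
      rcases Finset.mem_insert.1 hi with rfl | hi
      · rfl
      · obtain ⟨a, ha, rfl⟩ := Finset.mem_image.1 hi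
        rfl
    have h4 : ∑ i ∈ b \ b', rd i ≤ 2 * (b \ b').card := by
      rw [mul_comm, ← smul_eq_mul, ← Finset.sum_const]
      refine Finset.sum_le_sum fun i _ => ?_
      rcases i with (_ | _) | _
      · exact one_le_two
      · exact le_rfl
      · exact one_le_two
    have h5 := Finset.sum_sdiff (f := fun i => rd i) h1
    have h6 := Finset.card_sdiff_add_card_eq_card h1
    omega
  have hpht : 0 ≤ pht k x :=
    (hgt_nonneg _).trans (Pool.Agent.W603.CX.hgt_le_pht (k := k) x hx0 hx0)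
  obtain ⟨Ω, hΩ⟩ : ∃ Ω, Ω = (mx c0 dg D x (fun a => Finsupp.single c0 (dg a)) b σ).det /
        ∏ a, if Sum.inr a ∈ b then x c0 ^ dg a else eval x (F a) := ⟨_, rfl⟩
  have hΩ0 : Ω ≠ 0 := by
    rw [hΩ]
    refine div_ne_zero hdet (Finset.prod_ne_zero_iff.2 fun a _ => ?_)
    split_ifs with ha
    · exact pow_ne_zero _ hx0
    · exact hCn a (hG a ha)
  obtain ⟨S, hS⟩ : ∃ S : Finset A, S = Finset.univ.filter (fun a => a ∉ C) := ⟨_, rfl⟩
  have hSm : ∀ a, a ∈ S ↔ a ∉ C := fun a => by rw [hS]; simp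
  rw [← hS] at hdim
  obtain ⟨α, hα⟩ : ∃ α : ℤ, α = N * (∑ a, dg a : ℕ) - (∑ a ∈ S, β a * dg a : ℕ) -
    N * (∑ i ∈ b, rd i : ℕ) := ⟨_, rfl⟩
  have hα1 : 1 ≤ α := by
    have h1 : N * (∑ i ∈ b, rd i + C.card + 1) ≤ N * (2 * (m + 1)) :=
      Nat.mul_le_mul_left _ (hrd.trans (by omega))
    have h2 : N * (∑ i ∈ b, rd i) + ∑ a ∈ S, β a * dg a < N * ∑ a, dg a := by
      have h3 : N * (∑ i ∈ b, rd i + C.card + 1) = N * (∑ i ∈ b, rd i) + N * C.card + N := by ring
      have h4 : N * (2 * (m + 1)) = N * (2 * m + 1) + N := by ring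
      have h5 : N * (∑ a, dg a + C.card) = N * ∑ a, dg a + N * C.card := by ring
      omega
    rw [hα]
    have h3 : ((N * (∑ i ∈ b, rd i) + ∑ a ∈ S, β a * dg a : ℕ) : ℤ) <
      (N * ∑ a, dg a : ℕ) := by exact_mod_cast h2
    push_cast at h3 ⊢
    linarith
  refine sum_local hx00 (Θ := Ω ^ N * ∏ a ∈ S, eval x (F a) ^ β a) (a := α) hα1 ?_
    (fun P => ?_) hpht
  · refine (hdat.fin.union hw).subset fun P hP => ?_
    by_contra hcon
    rw [Set.mem_union, not_or] at hcon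
    have h1 : ¬ (e P ≠ 0) := hcon.1
    have h2 : ¬ (w P ≠ 0) := hcon.2
    rw [not_not] at h1 h2
    apply hP
    rw [h1, h2]
    ring
  · obtain ⟨B, hB⟩ : ∃ B : Finset A, B = Finset.univ.filter (fun a => Sum.inr a ∉ b) := ⟨_, rfl⟩
    have hBS : B ⊆ S := fun a ha => by
      rw [hB, Finset.mem_filter] at ha
      exact (hSm a).2 (hG a ha.2)
    -- the loss
    obtain ⟨ls, hls1, hls2⟩ : ∃ ls : ℤ, ((∑ i ∈ b, rd i : ℕ) - (∑ a, dg a : ℕ)) * pord P x -
        (n + 1) * e P - ls ≤ P.ord Ω ∧ N * ls ≤ ∑ a ∈ S,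
          (β a : ℤ) * (P.ord (eval x (F a)) - dg a * pord P x) + w P := by
      rcases hP P with ⟨heP, hP1⟩ | ⟨r, hr0, hr1, hr2⟩
      · rw [← hS] at hP1
        have h1 := local_est1 hdat P heP hx0 hb0 σ hspan hcard hdet (fun a ha => hCn a (hG a ha))
        rw [← hΩ] at h1
        refine ⟨_, ?_, hP1⟩
        rw [heP, mul_zero, sub_zero]
        refine le_trans (sub_le_sub_left ?_ _) h1
        split_ifs with h2 h3 h3
        · exact le_rfl
        · exfalso
          obtain ⟨a, ha, h4⟩ := h2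
          exact h3 ⟨a, hG a ha, h4⟩
        · exact zero_le_one
        · exact le_rfl
      · rw [← hS] at hr2
        have h1 := hdat.local_est P hx0 hb0 σ hspan hcard hdet (fun a ha => hCn a (hG a ha)) hr0 hr1
        rw [← hΩ] at h1
        refine ⟨_, ?_, hr2⟩
        refine le_trans (sub_le_sub_left ?_ _) h1
        rw [← hB]
        refine Finset.sum_le_sum_of_subset_of_nonneg hBS fun a _ _ => ?_
        split_ifs
        · exact hr0
        · exact le_rfl
    have hev0 : ∀ a ∈ S, eval x (F a) ^ β a ≠ 0 := fun a ha =>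
      pow_ne_zero _ (hCn a ((hSm a).1 ha))
    have h2 : P.ord (Ω ^ N * ∏ a ∈ S, eval x (F a) ^ β a) =
        N * P.ord Ω + ∑ a ∈ S, (β a : ℤ) * P.ord (eval x (F a)) := by
      rw [P.ord_mul (pow_ne_zero _ hΩ0) (Finset.prod_ne_zero_iff.2 hev0), P.ord_pow,
        ord_prod P _ _ hev0]
      congr 1
      exact Finset.sum_congr rfl fun a _ => P.ord_pow _ _
    rw [h2]
    have h5 : ∑ a ∈ S, (β a : ℤ) * (P.ord (eval x (F a)) - dg a * pord P x) =
        ∑ a ∈ S, (β a : ℤ) * P.ord (eval x (F a)) -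
          (∑ a ∈ S, β a * dg a : ℕ) * pord P x := by
      push_cast
      rw [Finset.sum_mul, ← Finset.sum_sub_distrib]
      exact Finset.sum_congr rfl fun a _ => by ring
    rw [h5] at hls2
    have hN0 : (0 : ℤ) ≤ N := Nat.cast_nonneg _
    have h6 := mul_le_mul_of_nonneg_left hls1 hN0
    have h8 : (-α) * pord P x = N * (((∑ i ∈ b, rd i : ℕ) - (∑ a, dg a : ℕ)) * pord P x) +
        (∑ a ∈ S, β a * dg a : ℕ) * pord P x := by
      rw [hα]
      ring
    rw [h8]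
    have h10 : (N : ℤ) * (((∑ i ∈ b, rd i : ℕ) - (∑ a, dg a : ℕ)) * pord P x - (n + 1) * e P -
      ls) = N * (((∑ i ∈ b, rd i : ℕ) - (∑ a, dg a : ℕ)) * pord P x) - N * ((n + 1) * e P) -
      N * ls := by ring
    rw [h10] at h6
    linarith

end

end Pool.Agent.H435.PC
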