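import Pool.Graph.R_pool_sql_team_seeded_63374d34.N617.RC.MULT
import Pool.Graph.R_pool_sql_team_seeded_63374d34.N126.RC.Base

/-!
Ramification of products: definitions, the Nullstellensatz, multiplicities at the places, base change.
-/

set_option autoImplicit false

open FF MvPolynomial Pool.Agent.W603.LV Pool.Agent.W603.PV
open Pool.Agent.N126.RC (wts FiniteOver)

namespace Pool.Agent.H435.PC

section defs

variable {n : ℕ} {W ι A : Type}

/-- The projection of `X = {G = 0}` is ramified over the hypersurfaces `F a = 0`, `a ∈ S`, of total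
order at least `1` with the weights `b a / N`: locally on `X`, the product of the `F a ^ b a` is in
the `N`-th power of an ideal whose zeros in `X` contain the hypersurfaces `F a = 0`, `a ∈ S`. -/
def RamifiedOverAll {K : Type} [Field K] (G : ι → MvPolynomial (Fin (n + 1) ⊕ W) K)
    (F : A → MvPolynomial (Fin (n + 1)) K) (S : Finset A) (b : A → ℕ) (N : ℕ) : Prop :=
  ∃ (s r : ℕ) (v : Fin s → MvPolynomial (Fin (n + 1) ⊕ W) K),
    (∀ i, X (Sum.inl i) ^ r * rename Sum.inl (∏ a ∈ S, F a ^ b a) ∈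
      Ideal.span (Set.range v) ^ N ⊔ Ideal.span (Set.range G)) ∧
    ∀ z : Fin (n + 1) ⊕ W → K, (∀ i, eval z (G i) = 0) →
      ∀ a ∈ S, eval (fun j => z (Sum.inl j)) (F a) = 0 → ∀ j, eval z (v j) = 0

/-- The algebraic form of the ramification: `f` is locally in the `q`-th power of an ideal, and the
form `H` has the same zeros as this ideal. -/
def Ram2 {K : Type} [Field K] (G : ι → MvPolynomial (Fin (n + 1) ⊕ W) K)
    (H f : MvPolynomial (Fin (n + 1)) K) (q : ℕ) : Prop :=
  ∃ (s r N : ℕ) (v : Fin s → MvPolynomial (Fin (n + 1) ⊕ W) K),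
    (∀ i, X (Sum.inl i) ^ r * rename Sum.inl f ∈
      Ideal.span (Set.range v) ^ q ⊔ Ideal.span (Set.range G)) ∧
    ∀ j, v j ^ N ∈ Ideal.span {rename Sum.inl H} ⊔ Ideal.span (Set.range G)

/-- At all places where the elements of `S0` are integral, if the points of `X` meet the
hypersurface `H = 0`, then they meet `f = 0` with multiplicity at least `q`. -/
def Mult2 {E : Type} [Field E] (S0 : Finset E) (G : ι → MvPolynomial (Fin (n + 1) ⊕ W) E)
    (H f : MvPolynomial (Fin (n + 1)) E) (d d0 q : ℕ) : Prop :=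
  ∀ (κ L : Type) [Field κ] [Field L] [Algebra κ L] (P : Place κ L) (φ : E →+* L),
    (∀ s ∈ S0, Ge P 0 (φ s)) → ∀ (x : Fin (n + 1) → L) (u : W → L), x ≠ 0 →
    (∀ i, eval₂ φ (Sum.elim x u) (G i) = 0) → eval₂ φ x H ≠ 0 → eval₂ φ x f ≠ 0 →
    d * pord P x < P.ord (eval₂ φ x H) → d0 * pord P x + q ≤ P.ord (eval₂ φ x f)

end defs

/-- The Nullstellensatz. -/
theorem ram_of_all {K : Type} [Field K] [IsAlgClosed K] {n : ℕ} {W ι A : Type} [Finite W]
    (G : ι → MvPolynomial (Fin (n + 1) ⊕ W) K) (F : A → MvPolynomial (Fin (n + 1)) K)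
    (S : Finset A) (b : A → ℕ) (q : ℕ) (h : RamifiedOverAll G F S b q) :
    Ram2 G (∏ a ∈ S, F a) (∏ a ∈ S, F a ^ b a) q := by
  obtain ⟨s, r, v, h1, h2⟩ := h
  set I : Ideal (MvPolynomial (Fin (n + 1) ⊕ W) K) :=
    Ideal.span {rename Sum.inl (∏ a ∈ S, F a)} ⊔ Ideal.span (Set.range G) with hI
  have hF : rename Sum.inl (∏ a ∈ S, F a) ∈ I := Ideal.mem_sup_left (Ideal.subset_span rfl)
  have hG : ∀ i, G i ∈ I := fun i => Ideal.mem_sup_right (Ideal.subset_span ⟨i, rfl⟩)
  have h3 : ∀ j, ∃ N : ℕ, v j ^ N ∈ I := by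
    intro j
    have h4 : v j ∈ vanishingIdeal K (zeroLocus K I) := by
      rw [mem_vanishingIdeal_iff]
      intro z hz
      rw [mem_zeroLocus_iff] at hz
      have h6 : eval z (rename Sum.inl (∏ a ∈ S, F a)) = 0 := by
        simpa [aeval_eq_eval] using hz _ hF
      rw [eval_rename, map_prod, Finset.prod_eq_zero_iff] at h6
      obtain ⟨a, ha, h6⟩ := h6
      have h5 := h2 z (fun i => by simpa [aeval_eq_eval] using hz (G i) (hG i)) a ha h6 j
      simpa [aeval_eq_eval] using h5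
    rw [vanishingIdeal_zeroLocus_eq_radical] at h4
    exact h4
  choose N hN using h3
  refine ⟨s, r, ∑ j, N j, v, h1, fun j => ?_⟩
  have h6 : N j ≤ ∑ j, N j := Finset.single_le_sum (fun _ _ => Nat.zero_le _) (Finset.mem_univ j)
  obtain ⟨m, hm⟩ := Nat.exists_eq_add_of_le h6
  rw [hm, pow_add]
  exact I.mul_mem_right _ (hN j)

/-- Base change. -/
theorem ram_map {K K' : Type} [Field K] [Field K'] (φ : K →+* K') {n : ℕ} {W ι : Type}
    (G : ι → MvPolynomial (Fin (n + 1) ⊕ W) K) (F f : MvPolynomial (Fin (n + 1)) K) (q : ℕ)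
    (c c' : K') (hc : c ≠ 0) (h : Ram2 G F f q) :
    Ram2 (fun i => map φ (G i)) (C c * map φ F) (C c' * map φ f) q := by
  have hren : ∀ P : MvPolynomial (Fin (n + 1)) K,
      map φ (rename (Sum.inl : Fin (n + 1) → Fin (n + 1) ⊕ W) P) = rename Sum.inl (map φ P) :=
    fun P => map_rename φ Sum.inl P
  have hspan : ∀ (α : Type) (v : α → MvPolynomial (Fin (n + 1) ⊕ W) K),
      (Ideal.span (Set.range v)).map (map φ : MvPolynomial (Fin (n + 1) ⊕ W) K →+* _) =
        Ideal.span (Set.range fun j => map φ (v j)) := by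
    intro α v
    rw [Ideal.map_span, ← Set.range_comp]
    rfl
  obtain ⟨s, r, N, v, h1, h2⟩ := h
  refine ⟨s, r, N, fun j => map φ (v j), fun i => ?_, fun j => ?_⟩
  · have h3 := Ideal.mem_map_of_mem (map φ : MvPolynomial (Fin (n + 1) ⊕ W) K →+* _) (h1 i)
    rw [Ideal.map_sup, Ideal.map_pow, hspan, hspan, map_mul, map_pow, map_X, hren] at h3
    have h4 : (X (Sum.inl i) : MvPolynomial (Fin (n + 1) ⊕ W) K') ^ r *
        rename Sum.inl (C c' * map φ f) = C c' * (X (Sum.inl i) ^ r * rename Sum.inl (map φ f)) := by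
      rw [map_mul, rename_C]; ring
    rw [h4]
    exact Ideal.mul_mem_left _ _ h3
  · have h3 := Ideal.mem_map_of_mem (map φ : MvPolynomial (Fin (n + 1) ⊕ W) K →+* _) (h2 j)
    rw [Ideal.map_sup, hspan, Ideal.map_span, Set.image_singleton, map_pow, hren] at h3
    have h4 : Ideal.span {rename Sum.inl (map φ F)} ≤ Ideal.span
        {(rename Sum.inl (C c * map φ F) : MvPolynomial (Fin (n + 1) ⊕ W) K')} := by
      rw [Ideal.span_singleton_le_span_singleton]
      refine ⟨C c⁻¹, ?_⟩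
      rw [map_mul, rename_C, mul_right_comm, ← C_mul, mul_inv_cancel₀ hc, C_1, one_mul]
    exact (sup_le_sup_right h4 _) h3

open Pool.Agent.N617.RC

/-- Multiplicities at the places from ideal memberships. -/
theorem mult_of_ram {K : Type} [Field K] {n : ℕ} {W ι : Type} [Finite W] (e : W → ℕ)
    (G : ι → MvPolynomial (Fin (n + 1) ⊕ W) K) (F f0 : MvPolynomial (Fin (n + 1)) K) (d d0 q : ℕ)
    (hG : ∀ i, ∃ c, (G i).IsWeightedHomogeneous (wts e) c) (hF : F.IsHomogeneous d)
    (hfh0 : f0.IsHomogeneous d0) (hFin : FiniteOver G) (hRam : Ram2 G F f0 q) :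
    ∃ T : Finset K, ∀ (E : Type) [Field E] (ψ : E →+* K), (∀ t ∈ T, t ∈ ψ.range) →
      ∀ (G' : ι → MvPolynomial (Fin (n + 1) ⊕ W) E) (F' f0' : MvPolynomial (Fin (n + 1)) E),
        (∀ i, map ψ (G' i) = G i) → map ψ F' = F → map ψ f0' = f0 →
          ∃ S0 : Finset E, Mult2 S0 G' F' f0' d d0 q := by
  classical
  obtain ⟨s, r, N, v, hv1, hv2⟩ := hRam
  set H : MvPolynomial (Fin (n + 1) ⊕ W) K := rename Sum.inl F with hH
  set H0 : MvPolynomial (Fin (n + 1) ⊕ W) K := rename Sum.inl f0 with hH0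
  have hvV : ∀ j, v j ∈ Vid G H 1 := by
    intro j
    refine root_mem G H (v j) N ?_
    have h1 : Ideal.span {H} ⊔ Ideal.span (Set.range G) ≤ Vid G H 1 := by
      refine sup_le ?_ (span_le_Vid G H 1)
      rw [Ideal.span_le, Set.singleton_subset_iff]
      exact H_mem_Vid G H
    exact h1 (hv2 j)
  have hJ : ∀ i, X (Sum.inl i) ^ r * H0 ∈ Vid G H q := by
    intro i
    have h1 : Ideal.span (Set.range v) ^ q ⊔ Ideal.span (Set.range G) ≤ Vid G H q := by
      refine sup_le (pow_le G H _ ?_ q) (span_le_Vid G H q)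
      rw [Ideal.span_le]
      rintro _ ⟨j, rfl⟩
      exact hvV j
    exact h1 (hv1 i)
  choose T1 hT1 using hJ
  choose p hp1 hp2 using hFin
  choose T2 hT2 using fun w => span_le_Zid G (hp2 w)
  have := Fintype.ofFinite W
  obtain ⟨T, hTdef⟩ : ∃ T : Finset K, T = Finset.univ.biUnion T1 ∪ Finset.univ.biUnion T2 ∪
    Finset.univ.biUnion (fun w => (Finset.range (p w).natDegree).biUnion
      fun i => ((p w).coeff i).coeffs) := ⟨_, rfl⟩
  have hTa : ∀ i, ∀ t ∈ T1 i, t ∈ T := by
    intro i t ht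
    rw [hTdef]
    simp only [Finset.mem_union, Finset.mem_biUnion, Finset.mem_univ, true_and]
    exact Or.inl (Or.inl ⟨i, ht⟩)
  have hTb : ∀ w, ∀ t ∈ T2 w, t ∈ T := by
    intro w t ht
    rw [hTdef]
    simp only [Finset.mem_union, Finset.mem_biUnion, Finset.mem_univ, true_and]
    exact Or.inl (Or.inr ⟨w, ht⟩)
  have hTc : ∀ w, ∀ i < (p w).natDegree, ∀ t ∈ ((p w).coeff i).coeffs, t ∈ T := by
    intro w i hi t ht
    rw [hTdef]
    simp only [Finset.mem_union, Finset.mem_biUnion, Finset.mem_univ, true_and]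
    exact Or.inr ⟨w, i, Finset.mem_range.2 hi, ht⟩
  refine ⟨T, ?_⟩
  intro E _ ψ hT G' F' f0' hG' hF' hf0'
  refine ⟨T.preimage ψ ψ.injective.injOn, ?_⟩
  intro κ L _ _ _ P φ hS x u hx hxu hFx hfx hord
  have hS' : ∀ s, ψ s ∈ T → Ge P 0 (φ s) := fun s hs => hS s (Finset.mem_preimage.2 hs)
  obtain ⟨j0, hj0, hj0'⟩ := exists_pord P (Function.ne_iff.1 hx)
  obtain ⟨lam, hlam⟩ : ∃ lam, lam = x j0 := ⟨_, rfl⟩
  have hlam0 : lam ≠ 0 := by rw [hlam]; exact hj0
  have hlamo : P.ord lam = pord P x := by rw [hlam]; exact hj0'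
  obtain ⟨z', hz'⟩ : ∃ z' : Fin (n + 1) ⊕ W → L, z' = fun a => Sum.elim x u a / lam ^ wts e a :=
    ⟨_, rfl⟩
  have hzz : ∀ a, Sum.elim x u a = lam ^ wts e a * z' a := by
    intro a
    rw [hz']
    field_simp
  have hx' : ∀ j, Ge P 0 (z' (Sum.inl j)) := by
    intro j
    refine Ge.of_mul' (h := lam) (m := pord P x) hlam0 hlamo ?_
    have h1 : lam * z' (Sum.inl j) = x j := by
      have := hzz (Sum.inl j)
      simp only [wts, Sum.elim_inl, pow_one] at this
      exact this.symm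
    rw [h1, zero_add]
    exact ge_pord P x j
  have hvan : ∀ i g, map ψ g = G i → eval₂ φ z' g = 0 := by
    intro i g hg
    obtain ⟨c, hc⟩ := hG i
    have hgG : g = G' i := map_injective ψ ψ.injective (by rw [hg, hG' i])
    have hc' : g.IsWeightedHomogeneous (wts e) c := whom_of_map ψ _ _ _ (by rw [hg]; exact hc)
    have h1 := eval_scale φ (wts e) c g hc' lam (Sum.elim x u) z' hzz
    rw [hgG, hxu i, ← hgG] at h1
    exact (mul_eq_zero.1 h1.symm).resolve_left (pow_ne_zero _ hlam0)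
  have hu' : ∀ w, Ge P 0 (z' (Sum.inr w)) := by
    intro w
    have hex : ∀ i, ∃ c' : MvPolynomial (Fin (n + 1)) E, i < (p w).natDegree →
        map ψ c' = (p w).coeff i := by
      intro i
      by_cases hi : i < (p w).natDegree
      · obtain ⟨c', hc'⟩ := lift ψ ((p w).coeff i) (fun t ht => hT t (hTc w i hi t ht))
        exact ⟨c', fun _ => hc'⟩
      · exact ⟨0, fun h => absurd h hi⟩
    choose c' hc' using hex
    have h1 : map ψ (X (Sum.inr w) ^ (p w).natDegree +
        ∑ i ∈ Finset.range (p w).natDegree, rename Sum.inl (c' i) * X (Sum.inr w) ^ i) =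
        (p w).eval₂ (rename Sum.inl).toRingHom (X (Sum.inr w)) := by
      rw [Polynomial.eval₂_eq_sum_range, Finset.sum_range_succ, map_add, map_pow, map_X, map_sum]
      refine (add_comm _ _).trans ?_
      congr 1
      · refine Finset.sum_congr rfl fun i hi => ?_
        rw [map_mul, map_pow, map_X, map_rename, hc' i (Finset.mem_range.1 hi)]
        rfl
      · rw [Polynomial.Monic.coeff_natDegree (hp1 w), map_one, one_mul]
    have h2 := hT2 w E ψ (fun t ht => hT t (hTb w t ht)) L φ z' hvan _ h1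
    rw [eval₂_add, eval₂_pow, eval₂_X, eval₂_sum] at h2
    refine int_of_monic P (p w).natDegree (fun i => eval₂ φ z' (rename Sum.inl (c' i))) ?_ _ ?_
    · intro i hi
      show Ge P 0 (eval₂ φ z' (rename Sum.inl (c' i)))
      rw [eval₂_rename]
      exact eval_int ψ P φ _ _ _ (hc' i hi) (fun s hs => hS' s (hTc w i hi _ hs)) hx'
    · rw [← h2]
      congr 1
      refine Finset.sum_congr rfl fun i _ => ?_
      rw [eval₂_mul, eval₂_pow, eval₂_X]
  have hint : ∀ a, Ge P 0 (z' a) := by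
    rintro (j | w)
    · exact hx' j
    · exact hu' w
  -- the value of the form
  have hmF : map ψ (rename Sum.inl F' : MvPolynomial (Fin (n + 1) ⊕ W) E) = H := by
    rw [map_rename, hF']
  obtain ⟨f, hf⟩ : ∃ f, f = eval₂ φ z' (rename Sum.inl F' : MvPolynomial (Fin (n + 1) ⊕ W) E) :=
    ⟨_, rfl⟩
  have hFf : eval₂ φ x F' = lam ^ d * f := by
    have hF1 : F'.IsWeightedHomogeneous (fun _ => 1) d :=
      whom_of_map ψ _ _ _ (by rw [hF']; exact hF)
    have h1 := eval_scale φ (fun _ => 1) d F' hF1 lam x (z' ∘ Sum.inl) (by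
      intro a
      have := hzz (Sum.inl a)
      simp only [wts, Sum.elim_inl] at this
      exact this)
    rw [h1, hf, eval₂_rename]
  have hf0 : f ≠ 0 := by
    rintro rfl
    rw [mul_zero] at hFf
    exact hFx hFf
  have hordf : P.ord (eval₂ φ x F') = d * pord P x + P.ord f := by
    rw [hFf, P.ord_mul (pow_ne_zero _ hlam0) hf0, P.ord_pow, hlamo]
  have hHg : ∀ g, map ψ g = H → Ge P 1 (eval₂ φ z' g) := by
    intro g hg
    have h1 : g = rename Sum.inl F' := map_injective ψ ψ.injective (by rw [hg, hmF])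
    rw [h1, ← hf]
    right
    omega
  -- the value of the second form
  have hmF0 : map ψ (rename Sum.inl f0' : MvPolynomial (Fin (n + 1) ⊕ W) E) = H0 := by
    rw [map_rename, hf0']
  obtain ⟨g, hg⟩ : ∃ g, g = eval₂ φ z' (rename Sum.inl f0' : MvPolynomial (Fin (n + 1) ⊕ W) E) :=
    ⟨_, rfl⟩
  have hFg : eval₂ φ x f0' = lam ^ d0 * g := by
    have hF1 : f0'.IsWeightedHomogeneous (fun _ => 1) d0 :=
      whom_of_map ψ _ _ _ (by rw [hf0']; exact hfh0)
    have h1 := eval_scale φ (fun _ => 1) d0 f0' hF1 lam x (z' ∘ Sum.inl) (by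
      intro a
      have := hzz (Sum.inl a)
      simp only [wts, Sum.elim_inl] at this
      exact this)
    rw [h1, hg, eval₂_rename]
  have hg0 : g ≠ 0 := by
    rintro rfl
    rw [mul_zero] at hFg
    exact hfx hFg
  have hordg : P.ord (eval₂ φ x f0') = d0 * pord P x + P.ord g := by
    rw [hFg, P.ord_mul (pow_ne_zero _ hlam0) hg0, P.ord_pow, hlamo]
  have hfin := hT1 j0 E ψ (fun t ht => hT t (hTa j0 t ht)) κ L P φ z'
    (fun s hs => hS' s (hTa j0 _ hs)) hint hvan hHg (X (Sum.inl j0) ^ r * rename Sum.inl f0')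
    (by rw [map_mul, map_pow, map_X, hmF0])
  have hone : z' (Sum.inl j0) = 1 := by
    rw [hz']
    simp only [wts, Sum.elim_inl, pow_one]
    rw [← hlam, div_self hlam0]
  rw [eval₂_mul, eval₂_pow, eval₂_X, hone, one_pow, one_mul, ← hg] at hfin
  have hq := hfin.resolve_left hg0
  rw [hordg]
  omega

end Pool.Agent.H435.PC
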