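import Pool.Graph.R_pool_sql_team_seeded_63374d34.N126.RC.Limit
import Pool.Agent.H435.PC.Mult
import Pool.Agent.H435.PC.Ineq

/-!
Limit points are constant (coverings with a ramification condition for a product).
-/

set_option autoImplicit false

open MvPolynomial FF Pool.Agent.W603.LV Pool.Agent.W603.PV Pool.Agent.W602.RG
open Pool.Agent.TH145.GH
open Pool.Agent.TH145.GD (Data St deg_St Full)
open Pool.Agent.TH145.GK (Gen exists_rig_data rank_le ord_ge)

namespace Pool.Agent.H435.PC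

open Pool.Agent.N126.RC (wts FiniteOver)

open scoped Classical in
/-- The condition at a place. -/
theorem prod_cond {A : Type} [Fintype A] {C R : Finset A} {v : A → ℤ} {β : A → ℕ} {N : ℕ}
    (hCR : ∀ a ∈ R, a ∉ C) (hβ : ∀ a, a ∉ R → β a = 0) (hlog : ∀ a, a ∉ C → a ∉ R → v a ≤ 0)
    (hv : ∀ a ∈ R, 0 ≤ v a) (hM : 0 < ∑ a ∈ R, v a → (N : ℤ) ≤ ∑ a ∈ R, (β a : ℤ) * v a) :
    (N : ℤ) * (if ∃ a, a ∉ C ∧ 0 < v a then 1 else 0) ≤
      ∑ a ∈ Finset.univ.filter (fun a => a ∉ C), (β a : ℤ) * v a := by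
  have h1 : ∑ a ∈ Finset.univ.filter (fun a => a ∉ C), (β a : ℤ) * v a =
      ∑ a ∈ R, (β a : ℤ) * v a := by
    symm
    refine Finset.sum_subset (fun a ha => by simpa using hCR a ha) fun a _ ha => ?_
    rw [hβ a ha, Nat.cast_zero, zero_mul]
  rw [h1]
  split_ifs with h
  · obtain ⟨a, ha, hva⟩ := h
    have haR : a ∈ R := by
      by_contra hcon
      have := hlog a ha hcon
      omega
    rw [mul_one]
    exact hM (lt_of_lt_of_le hva (Finset.single_le_sum (f := v) hv haR))
  · rw [mul_zero]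
    exact Finset.sum_nonneg fun a ha => mul_nonneg (Nat.cast_nonneg _) (hv a ha)

/-- The multiplicities of the product. -/
theorem mult_sum {E : Type} [Field E] {n : ℕ} {W ι A : Type} {S0 : Finset E}
    {G : ι → MvPolynomial (Fin (n + 1) ⊕ W) E} {F : A → MvPolynomial (Fin (n + 1)) E}
    {R : Finset A} {β dg : A → ℕ} {N : ℕ}
    (hM : Mult2 S0 G (∏ a ∈ R, F a) (∏ a ∈ R, F a ^ β a) (∑ a ∈ R, dg a) (∑ a ∈ R, β a * dg a) N)
    {κ L : Type} [Field κ] [Field L] [Algebra κ L] (P : Place κ L) (φ : E →+* L)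
    (hS : ∀ s ∈ S0, Ge P 0 (φ s)) (x : Fin (n + 1) → L) (u : W → L) (hx : x ≠ 0)
    (hG : ∀ i, eval₂ φ (Sum.elim x u) (G i) = 0) (hF : ∀ a ∈ R, eval x (map φ (F a)) ≠ 0)
    (hpos : 0 < ∑ a ∈ R, (P.ord (eval x (map φ (F a))) - dg a * pord P x)) :
    (N : ℤ) ≤ ∑ a ∈ R, (β a : ℤ) * (P.ord (eval x (map φ (F a))) - dg a * pord P x) := by
  have h1 : eval₂ φ x (∏ a ∈ R, F a) = ∏ a ∈ R, eval x (map φ (F a)) := by
    rw [← eval_map, map_prod, map_prod]
  have h2 : eval₂ φ x (∏ a ∈ R, F a ^ β a) = ∏ a ∈ R, eval x (map φ (F a)) ^ β a := by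
    rw [← eval_map, map_prod, map_prod]
    simp only [map_pow]
  have h3 : P.ord (∏ a ∈ R, eval x (map φ (F a))) = ∑ a ∈ R, P.ord (eval x (map φ (F a))) :=
    Pool.Agent.TH145.GC.ord_prod P _ _ hF
  have h4 : P.ord (∏ a ∈ R, eval x (map φ (F a)) ^ β a) =
      ∑ a ∈ R, (β a : ℤ) * P.ord (eval x (map φ (F a))) := by
    rw [Pool.Agent.TH145.GC.ord_prod P _ _ fun a ha => pow_ne_zero _ (hF a ha)]
    exact Finset.sum_congr rfl fun a _ => P.ord_pow _ _
  have h5 := hM κ L P φ hS x u hx hG (by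
    rw [h1]; exact Finset.prod_ne_zero_iff.2 hF) (by
    rw [h2]; exact Finset.prod_ne_zero_iff.2 fun a ha => pow_ne_zero _ (hF a ha)) (by
    rw [h1, h3, Nat.cast_sum, Finset.sum_mul]
    rw [Finset.sum_sub_distrib] at hpos
    linarith)
  rw [h2, h4] at h5
  have h6 : ∑ a ∈ R, (β a : ℤ) * (P.ord (eval x (map φ (F a))) - dg a * pord P x) =
      ∑ a ∈ R, (β a : ℤ) * P.ord (eval x (map φ (F a))) - (∑ a ∈ R, β a * dg a : ℕ) * pord P x := by
    push_cast
    rw [Finset.sum_mul, ← Finset.sum_sub_distrib]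
    exact Finset.sum_congr rfl fun a _ => by ring
  rw [h6]
  linarith

variable {k0 K : Type} [Field k0] [Field K] [Algebra k0 K] [IsAlgClosed k0] [IsAlgClosed K]
  [CharZero K] {W ι : Type} [Finite W]

open scoped Classical in
/-- Limit points are constant. -/
theorem limit {n m N : ℕ} {A : Type} [Fintype A] {c0 : Fin (n + 1)} {dg β : A → ℕ} (E : Subfield K)
    (hE : ∀ r : k0, algebraMap k0 K r ∈ E)
    {F : A → MvPolynomial (Fin (n + 1)) E} {DE : A → (Fin (n + 1) →₀ ℕ) → E → E}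
    (hG : Gen c0 F dg DE)
    (D : A → (Fin (n + 1) →₀ ℕ) → Derivation ℤ K K)
    (hDE : ∀ a I (x : E), D a I x = (DE a I x : K))
    (hDk : ∀ a I (r : k0), D a I (algebraMap k0 K r) = 0) (C R : Finset A)
    (hd : N * (2 * m + 1) + ∑ a ∈ Finset.univ.filter (fun a => a ∉ C), β a * dg a <
      N * (∑ a, dg a + C.card))
    (hCR : ∀ a ∈ R, a ∉ C) (hβ : ∀ a, a ∉ R → β a = 0)
    (G' : ι → MvPolynomial (Fin (n + 1) ⊕ W) E)
    (hM : ∃ S0 : Finset E, Mult2 S0 G' (∏ a ∈ R, F a) (∏ a ∈ R, F a ^ β a) (∑ a ∈ R, dg a)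
      (∑ a ∈ R, β a * dg a) N)
    (V : Set (MvPolynomial (Fin (n + 1)) k0))
    (hV : Pool.Agent.TH145.MG.DimLE k0 V m)
    (z : Fin (n + 1) → Om K) (hz : ∀ j, z j ∈ OE k0 (E : Set K))
    (y : W → Om K) (hy : ∀ a, y a ∈ OE k0 (E : Set K))
    (hl0 : z c0 = 1) (hzV : ∀ f ∈ V, eval₂ ((cst K).comp (algebraMap k0 K)) z f = 0)
    (hzC : ∀ a ∈ C, eval z (map ((cst K).comp E.subtype) (F a)) = 0)
    (hzn : ∀ a, a ∉ C → eval z (map ((cst K).comp E.subtype) (F a)) ≠ 0)
    (hzG : ∀ i, eval (Sum.elim z y) (map ((cst K).comp E.subtype) (G' i)) = 0)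
    (hint : ∀ a, a ∉ C → a ∉ R → ∀ j,
      z j ^ dg a / eval z (map ((cst K).comp E.subtype) (F a)) ∈
      Subring.closure (Set.range (mapOm k0 K) ∪ cst K '' (E : Set K))) (j : Fin (n + 1)) :
    z j ∈ acl (cst K '' (E : Set K)) := by
  classical
  by_contra hj1
  have h0 : ∀ (a : A) (j : Fin (n + 1)), ∃ c : Finset (Om K),
      (c : Set (Om K)) ⊆ Set.range (mapOm k0 K) ∧ (a ∉ C → a ∉ R →
      z j ^ dg a / eval z (map ((cst K).comp E.subtype) (F a)) ∈
        Subring.closure ((c : Set (Om K)) ∪ cst K '' (E : Set K))) := fun a j => by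
    by_cases ha : a ∈ C
    · exact ⟨∅, by simp, fun h => absurd ha h⟩
    · by_cases hqa : a ∉ R
      · obtain ⟨c, hc, h⟩ := fin_closure_ring (hint a ha hqa j)
        exact ⟨c, hc, fun _ _ => h⟩
      · exact ⟨∅, by simp, fun _ h => absurd h hqa⟩
  choose c hc hcz' using h0
  obtain ⟨X, hX⟩ : ∃ X : Finset (Om K), X = Finset.univ.biUnion fun p : A × Fin (n + 1) =>
    c p.1 p.2 := ⟨_, rfl⟩
  obtain ⟨κ, Λ, M, φ, D', hac, hFF, hzΛ', hzκ', hXM, hEκ, hφ, hdat, hdich, hDk'⟩ :=
    exists_rig_data E hE hG D hDE hDk (J := Fin (n + 1) ⊕ W) (Sum.elim z y) (by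
      rintro (j | a)
      · exact hz j
      · exact hy a) X (by
      intro w hw
      rw [hX, Finset.mem_coe, Finset.mem_biUnion] at hw
      obtain ⟨p, -, hw⟩ := hw
      obtain ⟨u, hu⟩ := hc _ _ hw
      exact ⟨u, hu⟩) (Sum.inl j) hj1
  have hzΛ : ∀ j, z j ∈ Λ := fun j => hzΛ' (Sum.inl j)
  have hyΛ : ∀ a, y a ∈ Λ := fun a => hzΛ' (Sum.inr a)
  have hzκ : z j ∉ κ := hzκ'
  have hczOm : CharZero (Om K) :=
    charZero_of_injective_algebraMap (algebraMap K (Om K)).injective
  have hcz : CharZero κ := charZero_of_injective_algebraMap (algebraMap ℚ κ).injective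
  have hczΛ : CharZero Λ := charZero_of_injective_algebraMap (algebraMap κ Λ).injective
  obtain ⟨x, hx⟩ : ∃ x : Fin (n + 1) → Λ, ∀ j, x j = ⟨z j, hzΛ j⟩ := ⟨_, fun _ => rfl⟩
  obtain ⟨y', hy'⟩ : ∃ y' : W → Λ, ∀ a, y' a = ⟨y a, hyΛ a⟩ := ⟨_, fun _ => rfl⟩
  have hxz : (fun j => ((x j : Λ) : Om K)) = z := by
    funext j
    rw [hx]
  have hxl0 : x c0 = 1 := by
    rw [hx]
    exact Subtype.ext hl0
  have hx0 : x ≠ 0 := by
    intro h0
    rw [h0] at hxl0
    exact zero_ne_one hxl0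
  have hxc0 : x c0 ≠ 0 := by rw [hxl0]; exact one_ne_zero
  have hev : ∀ a, ((eval x (map φ (F a)) : Λ) : Om K) =
      eval z (map ((cst K).comp E.subtype) (F a)) := fun a => by
    rw [eval_lift φ hφ (F a) x, hxz]
  have hxC : ∀ a ∈ C, eval x (map φ (F a)) = 0 := fun a ha => by
    apply Subtype.ext
    rw [hev, hzC a ha]
    rfl
  have hxF : ∀ a, a ∉ C → eval x (map φ (F a)) ≠ 0 := by
    intro a ha h0
    have h1 := hev a
    rw [h0] at h1
    exact hzn a ha h1.symm
  have hxG : ∀ i, eval₂ φ (Sum.elim x y') (G' i) = 0 := fun i => by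
    apply Subtype.ext
    have h1 := hom_eval₂ (G' i) φ (algebraMap Λ (Om K)) (Sum.elim x y')
    refine h1.trans ?_
    have h2 : (algebraMap Λ (Om K)).comp φ = (cst K).comp E.subtype := by
      ext r
      exact hφ r
    have h3 : (fun j => algebraMap Λ (Om K) (Sum.elim x y' j)) = Sum.elim z y := by
      funext j
      rcases j with j | a
      · exact congrFun hxz j
      · change ((y' a : Λ) : Om K) = y a
        rw [hy']
    rw [h2, h3, ← eval_map]
    exact hzG i
  -- the dimension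
  have hrk : Module.finrank Λ (Full c0 dg D' x) ≤ m + 1 := by
    let ψ : k0 →+* E := (algebraMap k0 K).codRestrict E hE
    let _ : Algebra k0 Λ := (φ.comp ψ).toAlgebra
    refine rank_le (k0 := k0) (fun a I r => hDk' a I r) hxl0 ?_
    refine hV Λ x hx0 fun f hf => ?_
    apply Subtype.ext
    have h1 := hom_eval₂ f (φ.comp ψ) (algebraMap Λ (Om K)) x
    refine h1.trans ?_
    have h2 : (algebraMap Λ (Om K)).comp (φ.comp ψ) = (cst K).comp (algebraMap k0 K) := by
      ext r
      exact hφ (ψ r)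
    rw [h2]
    have h3 : (fun i => algebraMap Λ (Om K) (x i)) = z := hxz
    rw [h3]
    exact hzV f hf
  -- the orders of the values of the forms
  have hcf : ∀ (P : Place κ Λ) a u, Ge P 0 ((map φ (F a)).coeff u) := by
    intro P a u
    rw [coeff_map]
    have h2 : φ ((F a).coeff u) =
        algebraMap κ Λ ⟨cst K (((F a).coeff u : E) : K), hEκ _ ((F a).coeff u).2⟩ :=
      Subtype.ext (hφ _)
    rw [h2]
    exact Ge.const _
  have hv0 : ∀ (P : Place κ Λ) a, a ∉ C → 0 ≤ P.ord (eval x (map φ (F a))) - dg a * pord P x := by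
    intro P a ha
    have h2 := ord_ge P (hdat.hom a) (g := 0) (by rw [neg_zero]; exact hcf P a) hx0 (hxF a ha)
    omega
  have hvq : ∀ (P : Place κ Λ),
      0 < ∑ a ∈ R, (P.ord (eval x (map φ (F a))) - dg a * pord P x) →
      (N : ℤ) ≤ ∑ a ∈ R, (β a : ℤ) * (P.ord (eval x (map φ (F a))) - dg a * pord P x) := by
    intro P hlt
    obtain ⟨S0, hS0⟩ := hM
    exact mult_sum hS0 P φ (fun s _ => by
      have h3 : φ s = algebraMap κ Λ ⟨cst K (s : K), hEκ _ s.2⟩ := Subtype.ext (hφ _)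
      rw [h3]
      exact Ge.const _) x y' hx0 hxG (fun a ha => hxF a (hCR a ha)) hlt
  have h1 := ineq1 hdat (β := β) (w := fun _ => 0) hd hxc0 hrk hxC hxF (by simp)
    (fun P => by
    -- the regularity of the derivations
    rcases hdich P with hP | hP
    · left
      refine ⟨rfl, ?_⟩
      rw [add_zero]
      refine prod_cond hCR hβ (fun a ha hqa => ?_) (fun a ha => hv0 P a (hCR a ha)) (hvq P)
      · -- integrality at the moving places
        have hreg : ∀ w ∈ Subring.closure ((X : Set (Om K)) ∪ cst K '' (E : Set K)),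
            ∃ a : Λ, (a : Om K) = w ∧ Ge P 0 a := by
          intro w hw
          induction hw using Subring.closure_induction with
          | mem w hw =>
            rcases hw with hw | ⟨y, hy, rfl⟩
            · obtain ⟨m, hm, hmw⟩ := hXM w hw
              exact ⟨m, hmw, Or.inr (hP m hm).ge⟩
            · exact ⟨algebraMap κ Λ ⟨cst K y, hEκ y hy⟩, rfl, Ge.const _⟩
          | zero => exact ⟨0, rfl, Ge.zero⟩
          | one => exact ⟨1, rfl, Ge.one⟩
          | add a b _ _ ha hb =>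
            obtain ⟨a', rfl, ha⟩ := ha
            obtain ⟨b', rfl, hb⟩ := hb
            exact ⟨a' + b', rfl, ha.add hb⟩
          | neg a _ ha =>
            obtain ⟨a', rfl, ha⟩ := ha
            exact ⟨-a', rfl, ha.neg⟩
          | mul a b _ _ ha hb =>
            obtain ⟨a', rfl, ha⟩ := ha
            obtain ⟨b', rfl, hb⟩ := hb
            refine ⟨a' * b', rfl, ?_⟩
            have := ha.mul hb
            rwa [add_zero] at this
        have hreg' : ∀ j, Ge P 0 (x j ^ dg a / eval x (map φ (F a))) := by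
          intro j
          obtain ⟨b, hb, hbP⟩ := hreg (z j ^ dg a / eval z (map ((cst K).comp E.subtype) (F a))) (by
            refine Subring.closure_mono (Set.union_subset_union_left _ ?_) (hcz' a j ha hqa)
            intro w hw
            rw [hX, Finset.mem_coe, Finset.mem_biUnion]
            exact ⟨(a, j), Finset.mem_univ _, hw⟩)
          have h2 : x j ^ dg a / eval x (map φ (F a)) = b := by
            apply Subtype.ext
            rw [hb, ← hev a, ← show ((x j : Λ) : Om K) = z j from congrFun hxz j]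
            rfl
          rw [h2]
          exact hbP
        have h2 := ord_of_int P (hdat.hom a) (hcf P a) hx0 (hxF a ha) hreg'
        rw [h2, sub_self]
    · right
      refine ⟨0, le_rfl, fun f hf a I _ => ?_, ?_⟩
      · rw [sub_zero]
        exact hP a I f hf
      · simp only [ite_self, Finset.sum_const_zero, mul_zero, add_zero]
        exact Finset.sum_nonneg fun a ha => mul_nonneg (Int.natCast_nonneg _)
          (hv0 P a (Finset.mem_filter.1 ha).2))
  simp only [mul_zero, add_zero, finsum_zero] at h1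
  obtain ⟨c, hc⟩ := const_of_pht h1 hxl0 j
  apply hzκ
  have h2 := congrArg (fun w : Λ => (w : Om K)) hc
  rw [hx] at h2
  change z j = (c : Om K) at h2
  rw [h2]
  exact c.2

end Pool.Agent.H435.PC
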