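import Pool.Graph.R_pool_sql_team_seeded_63374d34.N126.RC.Fin
import Pool.Agent.H435.PC.Limit

/-!
Heights of points on coverings, and finiteness over finitely generated rings and fields.
-/

set_option autoImplicit false

open MvPolynomial FF Pool.Agent.W603.LV Pool.Agent.W603.PV Pool.Agent.W602.RG
open Pool.Agent.TH145.GH
open Pool.Agent.TH145.GC (Cf finite_cf)
open Pool.Agent.TH145.GD (Data St deg_St Full)
open Pool.Agent.TH145.GK (Gen exists_data_L rank_le ord_ge)

namespace Pool.Agent.H435.PC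

open Pool.Agent.N126.RC (wts FiniteOver Bnd eval_mk_sum)

variable {k0 K ι : Type} [Field k0] [Field K] [Algebra k0 K] [IsAlgClosed K] [CharZero K]
  {y : ι → K} (E : IntermediateField (IntermediateField.adjoin k0 (Set.range y)) K)
  {W ι' : Type} [Finite W]

open scoped Classical in
/-- The heights of the integral points are bounded. -/
theorem heights {n m N : ℕ} {A : Type} [Fintype A] {c0 : Fin (n + 1)} {dg β : A → ℕ} (hy : AlgebraicIndependent k0 y)
    [FiniteDimensional (IntermediateField.adjoin k0 (Set.range y)) E]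
    {F : A → MvPolynomial (Fin (n + 1)) E.toSubfield}
    {DE : A → (Fin (n + 1) →₀ ℕ) → E.toSubfield → E.toSubfield}
    (hG : Gen c0 F dg DE)
    (D : A → (Fin (n + 1) →₀ ℕ) → Derivation ℤ K K)
    (hDE : ∀ a I (x : E.toSubfield), D a I x = (DE a I x : K))
    (hDk : ∀ a I (r : k0), D a I (algebraMap k0 K r) = 0)
    (hDy : ∀ a I j, ∃ r : k0, D a I (y j) = algebraMap k0 K r) (C R : Finset A)
    (hd : N * (2 * m + 1) + ∑ a ∈ Finset.univ.filter (fun a => a ∉ C), β a * dg a <
      N * (∑ a, dg a + C.card))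
    (hCR : ∀ a ∈ R, a ∉ C) (hβ : ∀ a, a ∉ R → β a = 0)
    (G' : ι' → MvPolynomial (Fin (n + 1) ⊕ W) E.toSubfield)
    (hM : ∃ S0 : Finset E.toSubfield, Mult2 S0 G' (∏ a ∈ R, F a) (∏ a ∈ R, F a ^ β a)
      (∑ a ∈ R, dg a) (∑ a ∈ R, β a * dg a) N)
    (hB : Bnd G')
    (V : Set (MvPolynomial (Fin (n + 1)) k0))
    (hV : Pool.Agent.TH145.MG.DimLE k0 V m)
    (T : Finset K) (hT : ∀ t ∈ T, t ∈ E) (i : ι) :
    ∃ B : ℤ, ∀ (x : Fin (n + 1) → E) (s : A → Fin (n + 1) → E) (u : W → E), x c0 = 1 →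
      (∀ f ∈ V, eval₂ (algebraMap k0 K) (fun j => (x j : K)) f = 0) →
      (∀ a ∈ C, eval (fun j => (x j : K)) (map E.toSubfield.subtype (F a)) = 0) →
      (∀ a, a ∉ C → eval (fun j => (x j : K)) (map E.toSubfield.subtype (F a)) ≠ 0) →
      (∀ a, a ∉ C → a ∉ R → ∀ j, (s a j : K) =
        (x j : K) ^ dg a / eval (fun j => (x j : K)) (map E.toSubfield.subtype (F a))) →
      (∀ a, a ∉ C → a ∉ R → ∀ j,
        (s a j : K) ∈ Subring.closure (Set.range (algebraMap k0 K) ∪ (T : Set K))) →
      (∀ i', eval (Sum.elim (fun j => (x j : K)) fun w => (u w : K))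
        (map E.toSubfield.subtype (G' i')) = 0) →
      (∀ j, hgt (kap k0 y i) (⟨(x j : K), subset_LL y _ i (x j).2⟩ :
        LL k0 y (E : Set K) i) ≤ B ∧ ∀ a, a ∉ C → a ∉ R →
        hgt (kap k0 y i) (⟨(s a j : K), subset_LL y _ i (s a j).2⟩ :
        LL k0 y (E : Set K) i) ≤ B) ∧
      ∀ a, hgt (kap k0 y i) (⟨(u a : K), subset_LL y _ i (u a).2⟩ :
        LL k0 y (E : Set K) i) ≤ B := by
  classical
  have hFF : IsFF (kap k0 y i) (LL k0 y (E : Set K) i) := LL_ff E hy i
  have hac : IsAlgClosed (kap k0 y i) := acl_isAlgClosed _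
  have hcz : CharZero (kap k0 y i) := charZero_of_injective_algebraMap
    (algebraMap ℚ (kap k0 y i)).injective
  obtain ⟨φ, D', e, hφ, hD', hdat⟩ := exists_data_L E hy hG D hDE hDk hDy i
  obtain ⟨S1, hS1⟩ := hM
  -- the poles of the generators of the ring and of the coefficients
  have hcf := finite_cf n dg
  have hcf' : Fintype (Cf n dg) := Fintype.ofFinite _
  obtain ⟨Z, hZ, hZF, hZS⟩ : ∃ Z : Finset (LL k0 y (E : Set K) i), (∀ t (ht : t ∈ T),
      (⟨t, subset_LL y _ i (hT t ht)⟩ : LL k0 y (E : Set K) i) ∈ Z) ∧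
      (∀ p : Cf n dg, φ ((F p.1).coeff p.2.1) ∈ Z) ∧ ∀ s ∈ S1, φ s ∈ Z := by
    refine ⟨T.attach.image (fun t : {t // t ∈ T} =>
      (⟨t.1, subset_LL y _ i (hT t.1 t.2)⟩ : LL k0 y (E : Set K) i)) ∪
      (Finset.univ.image (fun p : Cf n dg => φ ((F p.1).coeff p.2.1)) ∪
        S1.image φ), fun t ht => ?_, fun p => ?_,
      fun s hs => ?_⟩
    · exact Finset.mem_union_left _ (Finset.mem_image.2 ⟨⟨t, ht⟩, Finset.mem_attach _ _, rfl⟩)
    · exact Finset.mem_union_right _ (Finset.mem_union_left _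
        (Finset.mem_image_of_mem _ (Finset.mem_univ _)))
    · exact Finset.mem_union_right _ (Finset.mem_union_right _ (Finset.mem_image_of_mem _ hs))
  obtain ⟨g1, hg1, hg1f, hg1T⟩ := exists_poles (κ := kap k0 y i) Z
  obtain ⟨w, hw⟩ : ∃ w : Place (kap k0 y i) (LL k0 y (E : Set K) i) → ℤ,
    ∀ P, w P = if g1 P = 0 ∧ e P = 0 then 0 else
      N * (Fintype.card A * (e P + 1)) + (∑ a, (β a : ℤ)) * g1 P := ⟨_, fun _ => rfl⟩
  have hwf : {P | w P ≠ 0}.Finite := by
    refine (hg1f.union hdat.fin).subset fun P hP => ?_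
    by_contra hcon
    apply hP
    rw [Set.mem_union, not_or] at hcon
    have h1 : ¬ (e P ≠ 0) := hcon.2
    have h2 : ¬ (g1 P ≠ 0) := hcon.1
    rw [not_not] at h1 h2
    rw [hw, if_pos ⟨h2, h1⟩]
  obtain ⟨H, hH⟩ : ∃ H : ℤ, H = max (∑ᶠ P, (N * ((n + 1) * e P) + w P)) 0 :=
    ⟨_, rfl⟩
  choose B1 hB1 using fun a => hgt_eval_le (κ := kap k0 y i) H (map φ (F a))
  have hH0 : 0 ≤ H := by rw [hH]; exact le_max_right _ _
  obtain ⟨B2, hB2⟩ : ∃ B2 : ℤ, ∀ a, dg a * H + B1 a ≤ B2 := by
    obtain ⟨B, hB⟩ := (Set.finite_range fun a => dg a * H + B1 a).bddAbove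
    exact ⟨B, fun a => hB ⟨a, rfl⟩⟩
  obtain ⟨B3, hB3⟩ := hB (kap k0 y i) (LL k0 y (E : Set K) i) φ H
  refine ⟨max (max H B2) B3, fun x s u hx hxV hxC hxF hs hsT hu => ?_⟩
  obtain ⟨x', hx'⟩ : ∃ x' : Fin (n + 1) → LL k0 y (E : Set K) i,
    ∀ j, x' j = ⟨(x j : K), subset_LL y _ i (x j).2⟩ := ⟨_, fun _ => rfl⟩
  have hxl0 : x' c0 = 1 := by
    rw [hx']
    apply Subtype.ext
    change (x c0 : K) = 1
    rw [hx]; rfl
  have hxc0 : x' c0 ≠ 0 := by rw [hxl0]; exact one_ne_zero
  have hx0 : x' ≠ 0 := by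
    intro h0
    rw [h0] at hxl0
    exact zero_ne_one hxl0
  have hev : ∀ a, algebraMap (LL k0 y (E : Set K) i) K (eval x' (map φ (F a))) =
      eval (fun j => (x j : K)) (map E.toSubfield.subtype (F a)) := by
    intro a
    rw [eval_incl φ hφ (F a) x']
    congr 2
    funext j
    rw [hx']
    rfl
  have hxC' : ∀ a ∈ C, eval x' (map φ (F a)) = 0 := by
    intro a ha
    apply (algebraMap (LL k0 y (E : Set K) i) K).injective
    rw [map_zero, hev, hxC a ha]
  have hxF' : ∀ a, a ∉ C → eval x' (map φ (F a)) ≠ 0 := by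
    intro a ha h0
    have h1 := hev a
    rw [h0, map_zero] at h1
    exact hxF a ha h1.symm
  have hsx : ∀ a, a ∉ C → a ∉ R → ∀ j, (⟨(s a j : K), subset_LL y _ i (s a j).2⟩ :
      LL k0 y (E : Set K) i) = x' j ^ dg a / eval x' (map φ (F a)) := by
    intro a ha hqa j
    apply (algebraMap (LL k0 y (E : Set K) i) K).injective
    rw [map_div₀, hev, map_pow, hx']
    exact hs a ha hqa j
  obtain ⟨u', hu'⟩ : ∃ u' : W → LL k0 y (E : Set K) i,
    ∀ a, u' a = ⟨(u a : K), subset_LL y _ i (u a).2⟩ := ⟨_, fun _ => rfl⟩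
  have hG0 : ∀ i', eval₂ φ (Sum.elim x' u') (G' i') = 0 := by
    intro i'
    apply (algebraMap (LL k0 y (E : Set K) i) K).injective
    have h1 := hom_eval₂ (G' i') φ (algebraMap (LL k0 y (E : Set K) i) K) (Sum.elim x' u')
    have h2 : (algebraMap (LL k0 y (E : Set K) i) K).comp φ = E.toSubfield.subtype := by
      ext r
      exact hφ r
    have h3 : (fun j => algebraMap (LL k0 y (E : Set K) i) K (Sum.elim x' u' j)) =
        Sum.elim (fun j => (x j : K)) fun w => (u w : K) := by
      funext j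
      rcases j with j | a
      · change algebraMap (LL k0 y (E : Set K) i) K (x' j) = _
        rw [hx']
        rfl
      · change algebraMap (LL k0 y (E : Set K) i) K (u' a) = _
        rw [hu']
        rfl
    rw [h1, h2, h3, ← eval_map, hu i', map_zero]
  -- the dimension
  have hrk : Module.finrank (LL k0 y (E : Set K) i) (Full c0 dg D' x') ≤ m + 1 := by
    let ψ : k0 →+* LL k0 y (E : Set K) i :=
      { toFun := fun r => ⟨algebraMap k0 K r, subset_LL y _ i (k0_mem E r)⟩
        map_one' := Subtype.ext (map_one _)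
        map_mul' := fun a b => Subtype.ext (map_mul _ a b)
        map_zero' := Subtype.ext (map_zero _)
        map_add' := fun a b => Subtype.ext (map_add _ a b) }
    have hczL : CharZero (LL k0 y (E : Set K) i) :=
      charZero_of_injective_algebraMap (algebraMap (kap k0 y i) _).injective
    let _ : Algebra k0 (LL k0 y (E : Set K) i) := ψ.toAlgebra
    refine rank_le (k0 := k0) (fun a I r => ?_) hxl0 ?_
    · apply Subtype.ext
      rw [hD']
      exact hDk a I r
    · refine hV _ x' hx0 fun f hf => ?_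
      apply Subtype.ext
      have h1 := hom_eval₂ f ψ (algebraMap (LL k0 y (E : Set K) i) K) x'
      refine h1.trans ?_
      have h2 : (algebraMap (LL k0 y (E : Set K) i) K).comp ψ = algebraMap k0 K := by
        ext r
        rfl
      have h3 : (fun j => algebraMap (LL k0 y (E : Set K) i) K (x' j)) = fun j => (x j : K) := by
        funext j
        rw [hx']
        rfl
      rw [h2, h3]
      exact hxV f hf
  have hcf : ∀ P a u, Ge P (-g1 P) ((map φ (F a)).coeff u) := by
    intro P a u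
    rw [coeff_map]
    by_cases hu : u ∈ (F a).support
    · exact hg1T P _ (hZF ⟨a, u, deg_of_mem (hG.hom a) hu⟩)
    · rw [notMem_support_iff.1 hu, map_zero]
      exact Ge.zero
  have h1 : pht (kap k0 y i) x' ≤ H := by
    rw [hH]
    refine (ineq1 hdat (β := β) (w := w) hd hxc0 hrk hxC' hxF' hwf fun P => ?_).trans
      (le_max_left _ _)
    have he0 := hdat.e_nonneg P
    have hg0 := hg1 P
    have hva : ∀ a, a ∉ C → -g1 P ≤ P.ord (eval x' (map φ (F a))) - dg a * pord P x' :=
      fun a ha => ord_ge P (hdat.hom a) (hcf P a) hx0 (hxF' a ha)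
    by_cases hgood : g1 P = 0 ∧ e P = 0
    · left
      refine ⟨hgood.2, ?_⟩
      have hw1 : w P = 0 := by rw [hw, if_pos hgood]
      rw [hw1, add_zero]
      refine prod_cond hCR hβ (fun a ha hqa => ?_) (fun a ha => ?_) fun hlt => ?_
      · have h3 := ord_of_int P (hdat.hom a) (fun u => by
          have := hcf P a u
          rwa [hgood.1, neg_zero] at this) hx0 (hxF' a ha) fun j => (by
          rw [← hsx a ha hqa]
          obtain ⟨b, hb, hbP⟩ := ge_of_closure E i P hT (fun t ht => by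
            have := hg1T P _ (hZ t ht)
            rwa [hgood.1, neg_zero] at this) (hsT a ha hqa j)
          have : b = ⟨(s a j : K), subset_LL y _ i (s a j).2⟩ := Subtype.ext hb
          rw [← this]
          exact hbP)
        rw [h3, sub_self]
      · have h3 := hva a (hCR a ha)
        rwa [hgood.1, neg_zero] at h3
      · exact mult_sum hS1 P φ (fun s hs => by
          have := hg1T P _ (hZS s hs)
          rwa [hgood.1, neg_zero] at this) x' u' hx0 hG0 (fun a ha => hxF' a (hCR a ha)) hlt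
    · right
      refine ⟨e P + 1, by omega,
        fun f hf a I hI => loss_all P (fun f hf => hdat.loss P f hf a I hI) hf, ?_⟩
      have hw1 : w P = N * (Fintype.card A * (e P + 1)) + (∑ a, (β a : ℤ)) * g1 P := by
        rw [hw, if_neg hgood]
      have h3 : (∑ a ∈ Finset.univ.filter (fun a => a ∉ C),
          if 0 < P.ord (eval x' (map φ (F a))) - dg a * pord P x' then e P + 1 else 0) ≤
          Fintype.card A * (e P + 1) := by
        have h4 : (∑ a ∈ Finset.univ.filter (fun a => a ∉ C),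
          if 0 < P.ord (eval x' (map φ (F a))) - dg a * pord P x' then e P + 1 else 0) ≤
          ∑ a ∈ Finset.univ.filter (fun a => a ∉ C), (e P + 1) := by
          refine Finset.sum_le_sum fun a _ => ?_
          split_ifs <;> omega
        refine h4.trans ?_
        rw [Finset.sum_const, nsmul_eq_mul]
        exact mul_le_mul_of_nonneg_right (by exact_mod_cast Finset.card_le_univ _) (by omega)
      have h5 : -((∑ a, (β a : ℤ)) * g1 P) ≤ ∑ a ∈ Finset.univ.filter (fun a => a ∉ C),
          (β a : ℤ) * (P.ord (eval x' (map φ (F a))) - dg a * pord P x') := by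
        have h6 : ∑ a ∈ Finset.univ.filter (fun a => a ∉ C), (β a : ℤ) * (-g1 P) ≤
            ∑ a ∈ Finset.univ.filter (fun a => a ∉ C),
            (β a : ℤ) * (P.ord (eval x' (map φ (F a))) - dg a * pord P x') :=
          Finset.sum_le_sum fun a ha => mul_le_mul_of_nonneg_left
            (hva a (Finset.mem_filter.1 ha).2) (Nat.cast_nonneg _)
        refine le_trans ?_ h6
        rw [← Finset.sum_mul, mul_neg]
        refine neg_le_neg (mul_le_mul_of_nonneg_right ?_ hg0)
        exact Finset.sum_le_univ_sum_of_nonneg fun a => Nat.cast_nonneg _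
      have h7 := mul_le_mul_of_nonneg_left h3 (Nat.cast_nonneg (α := ℤ) N)
      rw [hw1]
      linarith
  have h2 : ∀ j, hgt (kap k0 y i) (x' j) ≤ H := by
    intro j
    by_cases hj : x' j = 0
    · rw [hj]
      have := Pool.Agent.TH145.MG.hgt_const (k := kap k0 y i) (L := LL k0 y (E : Set K) i) 0
      rw [map_zero] at this
      rw [this]
      exact hH0
    · have h2 := Pool.Agent.W603.CX.hgt_le_pht (k := kap k0 y i) x' hj (l := c0)
        (by rw [hxl0]; exact one_ne_zero)
      rw [hxl0, div_one] at h2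
      exact h2.trans h1
  refine ⟨fun j => ⟨?_, fun a ha hqa => ?_⟩, fun a => ?_⟩
  · rw [← hx']
    exact (h2 j).trans ((le_max_left _ _).trans (le_max_left _ _))
  · rw [hsx a ha hqa, div_eq_mul_inv]
    refine (Pool.Agent.TH145.MW.hgt_mul_le (k := kap k0 y i) _ _).trans ?_
    rw [hgt_inv]
    refine (add_le_add ((Pool.Agent.TH145.MW.hgt_pow_le (k := kap k0 y i) _ _).trans
      (mul_le_mul_of_nonneg_left (h2 j) (by positivity))) (hB1 a x' h2)).trans ?_
    exact (hB2 a).trans ((le_max_right _ _).trans (le_max_left _ _))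
  · rw [← hu']
    exact (hB3 x' u' hG0 h2 a).trans (le_max_right _ _)

open scoped Classical in
/-- Finiteness of the integral points. -/
theorem fin_all {n m N : ℕ} {A : Type} [Fintype A] {c0 : Fin (n + 1)} {dg β : A → ℕ}
    [IsAlgClosed k0] [Finite ι]
    (hy : IsTranscendenceBasis k0 y)
    [FiniteDimensional (IntermediateField.adjoin k0 (Set.range y)) E]
    [IsGalois (IntermediateField.adjoin k0 (Set.range y)) E]
    {F : A → MvPolynomial (Fin (n + 1)) E.toSubfield}
    {DE : A → (Fin (n + 1) →₀ ℕ) → E.toSubfield → E.toSubfield}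
    (hG : Gen c0 F dg DE)
    (D : A → (Fin (n + 1) →₀ ℕ) → Derivation ℤ K K)
    (hDE : ∀ a I (x : E.toSubfield), D a I x = (DE a I x : K))
    (hDk : ∀ a I (r : k0), D a I (algebraMap k0 K r) = 0)
    (hDy : ∀ a I j, ∃ r : k0, D a I (y j) = algebraMap k0 K r) (C R : Finset A)
    (hd : N * (2 * m + 1) + ∑ a ∈ Finset.univ.filter (fun a => a ∉ C), β a * dg a <
      N * (∑ a, dg a + C.card))
    (hCR : ∀ a ∈ R, a ∉ C) (hβ : ∀ a, a ∉ R → β a = 0)
    (G' : ι' → MvPolynomial (Fin (n + 1) ⊕ W) E.toSubfield)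
    (hM : ∃ S0 : Finset E.toSubfield, Mult2 S0 G' (∏ a ∈ R, F a) (∏ a ∈ R, F a ^ β a)
      (∑ a ∈ R, dg a) (∑ a ∈ R, β a * dg a) N)
    (hB : Bnd G')
    (V : Set (MvPolynomial (Fin (n + 1)) k0))
    (hV : Pool.Agent.TH145.MG.DimLE k0 V m) (T : Finset K) (hT : ∀ t ∈ T, t ∈ E) :
    {x : Fin (n + 1) → K | (∀ j, x j ∈ E) ∧ x c0 = 1 ∧
      (∀ f ∈ V, eval₂ (algebraMap k0 K) x f = 0) ∧
      (∀ a ∈ C, eval x (map E.toSubfield.subtype (F a)) = 0) ∧
      (∀ a, a ∉ C → eval x (map E.toSubfield.subtype (F a)) ≠ 0) ∧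
      (∀ a, a ∉ C → a ∉ R → ∀ j, x j ^ dg a / eval x (map E.toSubfield.subtype (F a)) ∈
        Subring.closure (Set.range (algebraMap k0 K) ∪ (T : Set K))) ∧
      ∃ u : W → K, (∀ w, u w ∈ E) ∧
        ∀ i', eval (Sum.elim x u) (map E.toSubfield.subtype (G' i')) = 0}.Finite := by
  by_contra hinf
  let f := Set.Infinite.natEmbedding _ hinf
  obtain ⟨x, hx⟩ : ∃ x : ℕ → Fin (n + 1) → K, ∀ n, x n = (f n).1 := ⟨_, fun _ => rfl⟩
  have hxinj : Function.Injective x := by
    intro a b hab
    rw [hx, hx] at hab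
    exact f.injective (Subtype.ext hab)
  have hxE : ∀ n j, x n j ∈ E := fun n j => by rw [hx]; exact (f n).2.1 j
  have hxl : ∀ n, x n c0 = 1 := fun n => by rw [hx]; exact (f n).2.2.1
  have hxV : ∀ n, ∀ f ∈ V, eval₂ (algebraMap k0 K) (x n) f = 0 := fun n => by
    rw [hx]; exact (f n).2.2.2.1
  have hxC : ∀ n, ∀ a ∈ C, eval (x n) (map E.toSubfield.subtype (F a)) = 0 := fun n => by
    rw [hx]; exact (f n).2.2.2.2.1
  have hxF : ∀ n a, a ∉ C → eval (x n) (map E.toSubfield.subtype (F a)) ≠ 0 := fun n => by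
    rw [hx]; exact (f n).2.2.2.2.2.1
  have hxs : ∀ n a, a ∉ C → a ∉ R → ∀ j,
      x n j ^ dg a / eval (x n) (map E.toSubfield.subtype (F a)) ∈
      Subring.closure (Set.range (algebraMap k0 K) ∪ (T : Set K)) := fun n => by
    rw [hx]; exact (f n).2.2.2.2.2.2.1
  have hxq : ∀ n, ∃ u : W → K, (∀ w, u w ∈ E) ∧
      ∀ i', eval (Sum.elim (x n) u) (map E.toSubfield.subtype (G' i')) = 0 := fun n => by
    rw [hx]; exact (f n).2.2.2.2.2.2.2
  have hcE : Subring.closure (Set.range (algebraMap k0 K) ∪ (T : Set K)) ≤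
      E.toSubfield.toSubring := by
    rw [Subring.closure_le]
    rintro w (⟨r, rfl⟩ | hw)
    · exact k0_mem E r
    · exact hT w hw
  obtain ⟨s, hs⟩ : ∃ s : ℕ → A → Fin (n + 1) → E, ∀ n a, a ∉ C → a ∉ R → ∀ j,
      (s n a j : K) =
      x n j ^ dg a / eval (x n) (map E.toSubfield.subtype (F a)) := by
    refine ⟨fun n a j => if ha : a ∉ C ∧ a ∉ R then ⟨_, hcE (hxs n a ha.1 ha.2 j)⟩ else 0,
      fun n a ha hqa j => ?_⟩
    simp only [dif_pos (⟨ha, hqa⟩ : a ∉ C ∧ a ∉ R)]
  choose u0 hu0E hu0 using hxq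
  obtain ⟨u, hu⟩ : ∃ u : ℕ → W → E, ∀ n w, (u n w : K) = u0 n w :=
    ⟨fun n w => ⟨u0 n w, hu0E n w⟩, fun _ _ => rfl⟩
  have huG : ∀ n i', eval (Sum.elim (x n) fun w => (u n w : K))
      (map E.toSubfield.subtype (G' i')) = 0 := by
    intro n i'
    have h1 : (fun w => (u n w : K)) = u0 n := funext (hu n)
    rw [h1]
    exact hu0 n i'
  choose B hB' using fun i => heights E hy.1 hG D hDE hDk hDy C R hd hCR hβ G' hM hB V hV T hT i
  have hB'' : ∀ n i, (∀ j, hgt (kap k0 y i) (⟨x n j, subset_LL y _ i (hxE n j)⟩ :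
        LL k0 y (E : Set K) i) ≤ B i ∧ ∀ a, a ∉ C → a ∉ R →
      hgt (kap k0 y i) (⟨(s n a j : K), subset_LL y _ i (s n a j).2⟩ :
        LL k0 y (E : Set K) i) ≤ B i) ∧
      ∀ a, hgt (kap k0 y i) (⟨(u n a : K), subset_LL y _ i (u n a).2⟩ :
        LL k0 y (E : Set K) i) ≤ B i := fun n i =>
    hB' i (fun j => ⟨x n j, hxE n j⟩) (s n) (u n) (Subtype.ext (hxl n)) (hxV n) (hxC n) (hxF n)
      (hs n) (fun a ha hqa j => by rw [hs n a ha hqa j]; exact hxs n a ha hqa j) (huG n)
  have hz : ∀ j, Om.mk (fun n => x n j) ∈ OE k0 ((E.toSubfield : Subfield K) : Set K) := fun j =>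
    lim_mem E hy (fun n => ⟨x n j, hxE n j⟩) B fun n i => ((hB'' n i).1 j).1
  have hz2 : ∀ a, Om.mk (fun n => (u n a : K)) ∈ OE k0 ((E.toSubfield : Subfield K) : Set K) :=
    fun a => lim_mem E hy (fun n => u n a) B fun n i => (hB'' n i).2 a
  have hev : ∀ a, eval (fun j => Om.mk fun n => x n j)
      (map ((cst K).comp E.toSubfield.subtype) (F a)) =
      Om.mk fun n => eval (x n) (map E.toSubfield.subtype (F a)) := fun a => eval_mk (F a) x
  have hacl := limit E.toSubfield (fun r => k0_mem E r) hG D hDE hDk C R hd hCR hβ G' hM V hV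
    (fun j => Om.mk fun n => x n j) hz (fun a => Om.mk fun n => (u n a : K)) hz2 (by
      have h1 : (fun n => x n c0) = fun _ => 1 := funext hxl
      rw [h1]; rfl) (fun f hf => by
      have h1 := Pool.Agent.TH145.MG.eval_mk x (map (algebraMap k0 K) f)
      have h2 : (fun n => eval (x n) (map (algebraMap k0 K) f)) = fun _ => 0 := by
        funext n
        rw [eval_map]
        exact hxV n f hf
      rw [h2] at h1
      have h3 : eval₂ (cst K) (fun j => Om.mk fun n => x n j) (map (algebraMap k0 K) f) = 0 := h1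
      rwa [eval₂_map] at h3) (fun a ha => by
      rw [hev]
      have h1 : (fun n => eval (x n) (map E.toSubfield.subtype (F a))) = fun _ => 0 :=
        funext fun n => hxC n a ha
      rw [h1]; rfl) (fun a ha => by
      rw [hev]
      intro h0
      have h1 : (Om.mk fun n => eval (x n) (map E.toSubfield.subtype (F a))) = Om.mk fun _ => 0 :=
        h0
      rw [Om.mk_eq] at h1
      obtain ⟨n, hn⟩ := h1.exists
      exact hxF n a ha hn) (fun i' => by
      have h1 := eval_mk_sum (G' i') (fun n => Sum.elim (x n) fun w => (u n w : K))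
      have h2 : (fun n => eval (Sum.elim (x n) fun w => (u n w : K))
          (map E.toSubfield.subtype (G' i'))) = fun _ => 0 := funext fun n => huG n i'
      have h3 : (fun j => Om.mk fun n => (Sum.elim (x n) (fun w => (u n w : K)) j : K)) =
          Sum.elim (fun j => Om.mk fun n => x n j) fun a => Om.mk fun n => (u n a : K) := by
        funext j
        rcases j with j | a <;> rfl
      rw [h2, h3] at h1
      exact h1) (fun a ha hqa j => by
      have h1 := lim_int E hy T (fun n => s n a j) (fun n => by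
        rw [hs n a ha hqa j]; exact hxs n a ha hqa j) B fun n i => ((hB'' n i).1 j).2 a ha hqa
      have h2 : (Om.mk fun n => x n j) ^ dg a /
          eval (fun j => Om.mk fun n => x n j) (map ((cst K).comp E.toSubfield.subtype) (F a)) =
          Om.mk fun n => (s n a j : K) := by
        have h3 : (fun n => (s n a j : K)) = fun n =>
            x n j ^ dg a / eval (x n) (map E.toSubfield.subtype (F a)) :=
          funext fun n => hs n a ha hqa j
        rw [hev, h3, ← Om.mk_div]
        congr 1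
      rw [h2]
      exact h1)
  choose a ha using fun j => eventually_const (hacl j)
  exact not_all_const hxinj a ha

end Pool.Agent.H435.PC
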