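import Pool.Graph.R_seed8.TH145.GD.Est

/-!
The order of the determinant at a place of good reduction: the total loss is at most one.
-/

set_option autoImplicit false

open MvPolynomial FF Pool.Agent.W603.LV Pool.Agent.W603.PV Pool.Agent.TH145.GH
open Pool.Agent.TH145.GC (Ev dF_sub dF_self det_est sub_one_ord ge_det)
open Pool.Agent.TH145.GD

namespace Pool.Agent.H435.PC

variable {k K : Type} [Field k] [Field K] [Algebra k K]

/-- A derivation which is regular at the place and does not move its centre does not lower the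
orders. -/
theorem log_of_unif {P : Place k K} {δ : Derivation ℤ K K} (hδ : ∀ f, Ge P 0 f → Ge P 0 (δ f))
    {π : K} (hπ : P.ord π = 1) (h : Ge P 1 (δ π)) {f : K} (hf : f ≠ 0) :
    Ge P (P.ord f) (δ f) := by
  have hπ0 : π ≠ 0 := by
    rintro rfl
    rw [P.ord_zero] at hπ
    omega
  obtain ⟨m, hm⟩ : ∃ m : ℤ, m = P.ord f := ⟨_, rfl⟩
  obtain ⟨g, hg⟩ : ∃ g, g = f * π ^ (-m) := ⟨_, rfl⟩
  have hπm : ∀ j : ℤ, π ^ j ≠ 0 := fun j => zpow_ne_zero _ hπ0
  have hg0 : g ≠ 0 := by
    rw [hg]
    exact mul_ne_zero hf (hπm _)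
  have hgo : P.ord g = 0 := by
    rw [hg, P.ord_mul hf (hπm _), P.ord_zpow, hπ, ← hm]
    ring
  have hfg : f = π ^ m * g := by
    rw [hg, zpow_neg, mul_comm f, ← mul_assoc, mul_inv_cancel₀ (hπm m), one_mul]
  have h1 : δ f = m * (π ^ (m - 1) * δ π * g) + π ^ m * δ g := by
    have h2 : δ (π ^ m) = m * π ^ (m - 1) * δ π := by
      rw [Derivation.leibniz_zpow, smul_eq_mul, zsmul_eq_mul, mul_assoc]
    rw [hfg, δ.leibniz, smul_eq_mul, smul_eq_mul, h2]
    ring
  have hz : ∀ j : ℤ, Ge P j (π ^ j) := fun j => Or.inr (by rw [P.ord_zpow, hπ]; omega)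
  have hgg : Ge P 0 g := Or.inr hgo.ge
  rw [h1, ← hm]
  refine Ge.add ?_ ?_
  · have h3 := (Ge.intCast (P := P) m).mul (((hz (m - 1)).mul h).mul hgg)
    exact h3.mono (by omega)
  · exact ((hz m).mul (hδ g hgg)).mono (by omega)

/-- A derivation which is regular at the place lowers the orders by at most one. -/
theorem loss_one {P : Place k K} {δ : Derivation ℤ K K} (hδ : ∀ f, Ge P 0 f → Ge P 0 (δ f))
    {f : K} (hf : f ≠ 0) : Ge P (P.ord f - 1) (δ f) := by
  obtain ⟨π, hπ0, hπ⟩ : ∃ π : K, π ≠ 0 ∧ P.ord π = 1 := P.surj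
  have hπ1 : Ge P 1 π := Or.inr hπ.ge
  have h1 : ∀ g, Ge P 0 g → Ge P 0 ((π • δ) g) := fun g hg => by
    rw [Derivation.smul_apply, smul_eq_mul]
    exact (hπ1.mul (hδ g hg)).mono (by omega)
  have h2 : Ge P 1 ((π • δ) π) := by
    rw [Derivation.smul_apply, smul_eq_mul]
    exact (hπ1.mul (hδ π (Or.inr (by omega)))).mono (by omega)
  have h3 := log_of_unif h1 hπ h2 hf
  rw [Derivation.smul_apply, smul_eq_mul] at h3
  exact Ge.of_mul' (h := π) (m := 1) hπ0 hπ (h3.mono (by omega))

section

variable {n : ℕ} {A : Type} {c0 : Fin (n + 1)} {F : A → MvPolynomial (Fin (n + 1)) K} {dg : A → ℕ}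
    {D : A → (Fin (n + 1) →₀ ℕ) → Derivation ℤ K K} {e : Place k K → ℤ}

/-- The derivation of a row. -/
noncomputable def rder (c0 : Fin (n + 1)) (dg : A → ℕ)
    (D : A → (Fin (n + 1) →₀ ℕ) → Derivation ℤ K K) (x : Fin (n + 1) → K) (e1 : Fin (n + 1)) :
    Option (Ti n A) ⊕ A → Derivation ℤ K K
  | Sum.inl none => 0
  | Sum.inl (some t) => if t.2.2 < dg t.1 then
      x c0 • D t.1 (sM c0 (dg t.1) t.2.1 (t.2.2 + 1)) - x t.2.1 • D t.1 (sM c0 (dg t.1) t.2.1 t.2.2)
      else 0
  | Sum.inr a => D a (Finsupp.single e1 (dg a))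

theorem rder_reg (hdat : Data k c0 F dg D e) {P : Place k K} (heP : e P = 0)
    {x : Fin (n + 1) → K} (hx : ∀ l, Ge P 0 (x l)) (e1 : Fin (n + 1)) (i : Option (Ti n A) ⊕ A)
    {f : K} (hf : Ge P 0 f) : Ge P 0 (rder c0 dg D x e1 i f) := by
  have hD : ∀ a, ∀ I ∈ St c0 (dg a), Ge P 0 (D a I f) := fun a I hI => by
    have := hdat.loss P f hf a I hI
    rwa [heP, neg_zero] at this
  rcases i with (_ | t) | a
  · exact Ge.zero
  · simp only [rder]
    split_ifs with ht
    · rw [Derivation.sub_apply, Derivation.smul_apply, Derivation.smul_apply, smul_eq_mul,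
        smul_eq_mul]
      have h1 := (hx c0).mul (hD t.1 _ (sM_mem (i := t.2.1) (j := t.2.2 + 1) (by omega)))
      have h2 := (hx t.2.1).mul (hD t.1 _ (sM_mem (i := t.2.1) (j := t.2.2) (by omega)))
      rw [add_zero] at h1 h2
      exact h1.sub h2
    · exact Ge.zero
  · exact hD a _ (single_mem _)

open scoped Classical in
/-- The differentials of the forms along the rows. -/
theorem dF_row (hdat : Data k c0 F dg D e) (x : Fin (n + 1) → K) (e1 : Fin (n + 1))
    {i : Option (Ti n A) ⊕ A} {a : A} (hi : i ≠ Sum.inr a) :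
    dF (F a) x (vv c0 dg D x (fun a => Finsupp.single e1 (dg a)) i) =
      rder c0 dg D x e1 i (eval x (F a)) +
        if i = Sum.inl none then dg a * eval x (F a) else 0 := by
  rcases i with (_ | t) | c
  · simp only [vv, wv, rder, if_true]
    rw [dF_self (hdat.hom a), Derivation.zero_apply, zero_add]
  · simp only [vv, wv, rder]
    have hne : ¬ ((Sum.inl (some t) : Option (Ti n A) ⊕ A) = Sum.inl none) := by simp
    rw [if_neg hne, add_zero]
    by_cases ht : t.2.2 < dg t.1
    · rw [dF_tv hdat.hom hdat.dual x a t ht, if_pos ht, Derivation.sub_apply,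
        Derivation.smul_apply, Derivation.smul_apply, smul_eq_mul, smul_eq_mul]
    · rw [tv, if_neg ht, if_neg ht, Derivation.zero_apply]
      simp [dF]
  · simp only [vv, rder]
    rw [if_neg (by simp), add_zero, dF_Ev hdat.hom hdat.dual x (single_mem _),
      if_neg fun h => hi (by rw [h]), sub_zero]

end

open scoped Classical in
/-- The order of a determinant whose rows are tangent to transversal divisors. -/
theorem det_est0 (P : Place k K) {R : Type} [Fintype R] [DecidableEq R] {B : Type}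
    (y : B → R → K) (u : B → R → K) (γ : B → ℤ) (S : Finset B) (hγ : ∀ a ∈ S, 1 ≤ γ a)
    (hu : ∀ a ∈ S, ∀ j, Ge P 0 (u a j)) (z : B → B → K)
    (hyu : ∀ a ∈ S, ∀ c ∈ S, ∑ j, y c j * u a j = z a c - if a = c then 1 else 0)
    (hz : ∀ a ∈ S, ∀ c ∈ S, Ge P (γ c) (z a c)) (v : R → R → K) (hv : ∀ i j, Ge P 0 (v i j))
    (hyv : ∀ a ∈ S, ∀ i, Ge P (γ a) (∑ j, y a j * v i j)) :
    Ge P (∑ a ∈ S, γ a) (Matrix.of v).det := by
  have h1 := det_est P y u γ 0 S (fun a ha j => by rw [neg_zero]; exact hu a ha j)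
    (fun a ha => by
      rw [hyu a ha a ha, if_pos rfl]
      exact sub_one_ord P ((hz a ha a ha).mono (hγ a ha)))
    (fun a ha c hc hac => by
      rw [hyu a ha c hc, if_neg hac, sub_zero]
      exact hz a ha c hc) v (fun i j => by rw [neg_zero]; exact hv i j) hyv
  rwa [mul_zero, sub_zero] at h1

section

variable {n : ℕ} {A : Type} {c0 : Fin (n + 1)} {F : A → MvPolynomial (Fin (n + 1)) K} {dg : A → ℕ}
    {D : A → (Fin (n + 1) →₀ ℕ) → Derivation ℤ K K} {e : Place k K → ℤ}

open scoped Classical in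
/-- The order of the determinant at a scaled point, at a place of good reduction. -/
theorem ord_det1 (hdat : Data k c0 F dg D e) [Fintype A] (P : Place k K) (heP : e P = 0)
    {x : Fin (n + 1) → K} (hx : ∀ l, Ge P 0 (x l)) {e1 : Fin (n + 1)} (he1 : x e1 = 1)
    {b : Finset (Option (Ti n A) ⊕ A)} (σ : b → Fin (n + 1))
    (hcard : Module.finrank K (Full c0 dg D x) = b.card)
    (hdet : (mx c0 dg D x (fun a => Finsupp.single e1 (dg a)) b σ).det ≠ 0)
    (hG : ∀ a, Sum.inr a ∉ b → eval x (F a) ≠ 0) :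
    (∑ a ∈ Finset.univ.filter (fun a => Sum.inr a ∉ b), P.ord (eval x (F a))) -
      (if ∃ a, Sum.inr a ∉ b ∧ 0 < P.ord (eval x (F a)) then 1 else 0) ≤
      P.ord (mx c0 dg D x (fun a => Finsupp.single e1 (dg a)) b σ).det := by
  have hdeg : ∀ a, Finsupp.single e1 (dg a) ∈ St c0 (dg a) := fun a => single_mem _
  obtain ⟨π, hπ0, hπ⟩ : ∃ π : K, π ≠ 0 ∧ P.ord π = 1 := P.surj
  have hπ1 : Ge P 1 π := Or.inr hπ.ge
  have hπi : Ge P 0 π := hπ1.mono (by omega)
  obtain ⟨y, hy⟩ : ∃ y : A → b → K, ∀ a, ∀ z ∈ Full c0 dg D x,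
      ∑ j, y a j * z (σ j) = dF (F a) x z := by
    choose y hy using fun a => exists_coord hdeg σ hcard hdet (F a)
    exact ⟨y, hy⟩
  obtain ⟨v, hv⟩ : ∃ v : b → b → K, ∀ i j, v i j =
    vv c0 dg D x (fun a => Finsupp.single e1 (dg a)) i (σ j) := ⟨_, fun _ _ => rfl⟩
  have hmx : mx c0 dg D x (fun a => Finsupp.single e1 (dg a)) b σ = Matrix.of v := by
    ext i j
    rw [Matrix.of_apply, hv]
    rfl
  rw [hmx] at hdet ⊢
  have hvi : ∀ i j, Ge P 0 (v i j) := fun i j => by
    rw [hv]
    have := hdat.ge_vv P hx hdeg i (σ j)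
    rwa [heP, neg_zero] at this
  obtain ⟨δ, hδ⟩ : ∃ δ : b → Derivation ℤ K K, ∀ i, δ i = rder c0 dg D x e1 i.1 :=
    ⟨_, fun _ => rfl⟩
  have hδr : ∀ i f, Ge P 0 f → Ge P 0 (δ i f) := fun i f hf => by
    rw [hδ]
    exact rder_reg hdat heP hx e1 i.1 hf
  obtain ⟨Da, hDa⟩ : ∃ Da : A → Derivation ℤ K K, ∀ a, Da a = D a (Finsupp.single e1 (dg a)) :=
    ⟨_, fun _ => rfl⟩
  have hDr : ∀ a f, Ge P 0 f → Ge P 0 (Da a f) := fun a f hf => by
    rw [hDa]
    have := hdat.loss P f hf a _ (hdeg a)
    rwa [heP, neg_zero] at this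
  obtain ⟨f, hf⟩ : ∃ f : A → K, ∀ a, f a = eval x (F a) := ⟨_, fun _ => rfl⟩
  obtain ⟨u, hu⟩ : ∃ u : A → b → K, ∀ a j, u a j = Da a (x (σ j)) := ⟨_, fun _ _ => rfl⟩
  have hui : ∀ a j, Ge P 0 (u a j) := fun a j => by
    rw [hu]
    exact hDr a _ (hx _)
  have hyv : ∀ a, Sum.inr a ∉ b → ∀ i : b, ∑ j, y a j * v i j =
      δ i (f a) + if i.1 = Sum.inl none then dg a * f a else 0 := by
    intro a ha i
    have h1 := hy a _ (vv_mem_full x hdeg i.1)
    rw [dF_row hdat x e1 fun h => ha (h ▸ i.2)] at h1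
    simp only [hv, hδ, hf]
    exact h1
  have hyu : ∀ a c, ∑ j, y c j * u a j = Da a (f c) - if a = c then 1 else 0 := by
    intro a c
    have h1 := hy c _ (Ev_mem_full x (hdeg a))
    rw [dF_Ev hdat.hom hdat.dual x (hdeg a), mon_single, he1, one_pow] at h1
    simp only [hu, hDa, hf]
    exact h1
  obtain ⟨S, hS⟩ : ∃ S : Finset A, ∀ a, a ∈ S ↔ Sum.inr a ∉ b ∧ 1 ≤ P.ord (f a) :=
    ⟨Finset.univ.filter fun a => Sum.inr a ∉ b ∧ 1 ≤ P.ord (f a), fun a => by simp⟩
  have hf0 : ∀ a ∈ S, f a ≠ 0 := fun a ha => by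
    rw [hf]
    exact hG a ((hS a).1 ha).1
  have hfi : ∀ a ∈ S, Ge P 0 (f a) := fun a ha => Or.inr (by have := ((hS a).1 ha).2; omega)
  have hsum : ∑ a ∈ Finset.univ.filter (fun a => Sum.inr a ∉ b), P.ord (eval x (F a)) ≤
      ∑ a ∈ S, P.ord (f a) := by
    rw [← Finset.sum_filter_add_sum_filter_not (Finset.univ.filter (fun a => Sum.inr a ∉ b))
      (fun a => 1 ≤ P.ord (f a))]
    have h1 : (Finset.univ.filter (fun a => Sum.inr a ∉ b)).filter (fun a => 1 ≤ P.ord (f a)) =
        S := by
      ext a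
      rw [Finset.mem_filter, Finset.mem_filter, hS]
      simp
    have h2 : ∑ a ∈ (Finset.univ.filter (fun a => Sum.inr a ∉ b)).filter
        (fun a => ¬ 1 ≤ P.ord (f a)), P.ord (eval x (F a)) ≤ 0 := by
      refine Finset.sum_nonpos fun a ha => ?_
      have := (Finset.mem_filter.1 ha).2
      rw [hf] at this
      omega
    rw [h1]
    have h3 : ∑ a ∈ S, P.ord (eval x (F a)) = ∑ a ∈ S, P.ord (f a) :=
      Finset.sum_congr rfl fun a _ => by rw [hf]
    rw [h3]
    linarith
  -- logarithmic derivations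
  have hlog : ∀ (η : Derivation ℤ K K), (∀ g, Ge P 0 g → Ge P 0 (η g)) → Ge P 1 (η π) →
      ∀ a ∈ S, Ge P (P.ord (f a)) (η (f a)) := fun η h1 h2 a ha =>
    log_of_unif h1 hπ h2 (hf0 a ha)
  by_cases hSe : ¬ ∃ a, Sum.inr a ∉ b ∧ 0 < P.ord (eval x (F a))
  · rw [if_neg hSe, sub_zero]
    have h1 : S = ∅ := by
      rw [Finset.eq_empty_iff_forall_notMem]
      intro a ha
      have h2 := (hS a).1 ha
      rw [hf] at h2
      exact hSe ⟨a, h2.1, by omega⟩
    rw [h1, Finset.sum_empty] at hsum
    have h2 := (ge_det P (Matrix.of v) (c := 0) fun i j => by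
      rw [neg_zero]; exact hvi i j).resolve_left hdet
    rw [mul_zero, neg_zero] at h2
    linarith
  rw [not_not] at hSe
  rw [if_pos hSe]
  suffices h : Ge P (∑ a ∈ S, P.ord (f a) - 1) (Matrix.of v).det by
    have := h.resolve_left hdet
    linarith
  by_cases hB : ∃ i0 : b, ¬ Ge P 1 (δ i0 π)
  · -- a row is transversal
    obtain ⟨i0, hi0⟩ := hB
    obtain ⟨t, ht⟩ : ∃ t, t = δ i0 π := ⟨_, rfl⟩
    rw [← ht] at hi0
    have ht0 : t ≠ 0 := fun h => hi0 (Or.inl h)
    have hto : P.ord t = 0 := by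
      have h1 : ¬ 1 ≤ P.ord t := fun h => hi0 (Or.inr h)
      have h2 := (hδr i0 π hπi).resolve_left (by rwa [← ht])
      rw [← ht] at h2
      omega
    have hti : Ge P 0 t⁻¹ := Or.inr (by rw [P.ord_inv, hto]; omega)
    have hi0n : i0.1 ≠ Sum.inl none := by
      intro h
      apply ht0
      rw [ht, hδ, h]
      rfl
    obtain ⟨r, hr⟩ : ∃ r : b → K, ∀ i, r i = if i = i0 then 0 else δ i π * t⁻¹ :=
      ⟨_, fun _ => rfl⟩
    have hri : ∀ i, Ge P 0 (r i) := by
      intro i
      rw [hr]
      split_ifs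
      · exact Ge.zero
      · have := (hδr i π hπi).mul hti
        rwa [add_zero] at this
    obtain ⟨v1, hv1⟩ : ∃ v1 : b → b → K, ∀ i, v1 i = v i - r i • v i0 := ⟨_, fun _ => rfl⟩
    have hri0 : r i0 = 0 := by rw [hr, if_pos rfl]
    have hv1i0 : v1 i0 = v i0 := by rw [hv1, hri0, zero_smul, sub_zero]
    have hdet1 : (Matrix.of v).det = (Matrix.of v1).det := by
      refine Matrix.det_eq_of_forall_row_eq_smul_add_const r i0 hri0 fun i j => ?_
      rw [Matrix.of_apply, Matrix.of_apply, Matrix.of_apply, hv1i0, hv1]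
      simp
    obtain ⟨v2, hv2⟩ : ∃ v2 : b → b → K, v2 = Function.update v1 i0 (π • v i0) := ⟨_, rfl⟩
    have hdet2 : (Matrix.of v2).det = π * (Matrix.of v1).det := by
      have h1 : Matrix.of v2 = (Matrix.of v1).updateRow i0 (π • v i0) := by
        rw [hv2]
        rfl
      have h2 : (Matrix.of v1).updateRow i0 (v i0) = Matrix.of v1 := by
        rw [← hv1i0]
        exact Matrix.updateRow_eq_self _ _
      rw [h1, Matrix.det_updateRow_smul, h2]
    have h3 := det_est0 P y (fun a j => u a j - Da a π * t⁻¹ * v i0 j) (fun a => P.ord (f a)) S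
      (fun a ha => ((hS a).1 ha).2)
      (fun a _ j => by
        have h4 := ((hDr a π hπi).mul hti).mul (hvi i0 j)
        simp only [add_zero] at h4
        exact (hui a j).sub h4)
      (fun a c => (Da a - (Da a π * t⁻¹) • δ i0) (f c))
      (fun a ha c hc => by
        have h4 : ∑ j, y c j * (u a j - Da a π * t⁻¹ * v i0 j) =
            ∑ j, y c j * u a j - Da a π * t⁻¹ * ∑ j, y c j * v i0 j := by
          rw [Finset.mul_sum, ← Finset.sum_sub_distrib]
          exact Finset.sum_congr rfl fun j _ => by ring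
        rw [h4, hyu, hyv c ((hS c).1 hc).1, if_neg hi0n, add_zero, Derivation.sub_apply,
          Derivation.smul_apply, smul_eq_mul]
        ring)
      (fun a ha c hc => by
        refine hlog _ (fun g hg => ?_) ?_ c hc
        · rw [Derivation.sub_apply, Derivation.smul_apply, smul_eq_mul]
          have h4 := ((hDr a π hπi).mul hti).mul (hδr i0 g hg)
          simp only [add_zero] at h4
          exact (hDr a g hg).sub h4
        · rw [Derivation.sub_apply, Derivation.smul_apply, smul_eq_mul, ← ht,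
            inv_mul_cancel_right₀ ht0, sub_self]
          exact Ge.zero) v2
      (fun i j => by
        rw [hv2]
        by_cases hi : i = i0
        · rw [hi, Function.update_self, Pi.smul_apply, smul_eq_mul]
          have h4 := hπi.mul (hvi i0 j)
          rwa [add_zero] at h4
        · rw [Function.update_of_ne hi, hv1, Pi.sub_apply, Pi.smul_apply, smul_eq_mul]
          have h4 := (hri i).mul (hvi i0 j)
          rw [add_zero] at h4
          exact (hvi i j).sub h4)
      (fun a ha i => by
        rw [hv2]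
        by_cases hi : i = i0
        · rw [hi, Function.update_self]
          have h4 : ∑ j, y a j * (π • v i0) j = π * ∑ j, y a j * v i0 j := by
            rw [Finset.mul_sum]
            refine Finset.sum_congr rfl fun j _ => ?_
            rw [Pi.smul_apply, smul_eq_mul]
            ring
          rw [h4, hyv a ((hS a).1 ha).1, if_neg hi0n, add_zero]
          exact (hπ1.mul (loss_one (hδr i0) (hf0 a ha))).mono (by omega)
        · rw [Function.update_of_ne hi]
          have h4 : ∑ j, y a j * v1 i j = ∑ j, y a j * v i j - r i * ∑ j, y a j * v i0 j := by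
            rw [Finset.mul_sum, ← Finset.sum_sub_distrib]
            refine Finset.sum_congr rfl fun j _ => ?_
            rw [hv1, Pi.sub_apply, Pi.smul_apply, smul_eq_mul]
            ring
          rw [h4, hyv a ((hS a).1 ha).1, hyv a ((hS a).1 ha).1, if_neg hi0n, add_zero]
          have h5 : δ i (f a) + (if i.1 = Sum.inl none then dg a * f a else 0) -
              r i * δ i0 (f a) = (δ i - r i • δ i0) (f a) +
                if i.1 = Sum.inl none then dg a * f a else 0 := by
            rw [Derivation.sub_apply, Derivation.smul_apply, smul_eq_mul]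
            ring
          rw [h5]
          refine Ge.add (hlog _ (fun g hg => ?_) ?_ a ha) ?_
          · rw [Derivation.sub_apply, Derivation.smul_apply, smul_eq_mul]
            have h6 := (hri i).mul (hδr i0 g hg)
            rw [add_zero] at h6
            exact (hδr i g hg).sub h6
          · rw [Derivation.sub_apply, Derivation.smul_apply, smul_eq_mul, hr, if_neg hi, ← ht,
              inv_mul_cancel_right₀ ht0, sub_self]
            exact Ge.zero
          · split_ifs
            · have h6 : Ge P (P.ord (f a)) (f a) := Or.inr le_rfl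
              exact ((Ge.natCast (P := P) (dg a)).mul h6).mono (by omega)
            · exact Ge.zero)
    rw [hdet2, ← hdet1] at h3
    exact Ge.of_mul' (h := π) (m := 1) hπ0 hπ (h3.mono (by omega))
  · -- all rows are tangent
    push Not at hB
    have hyv' : ∀ a ∈ S, ∀ i, Ge P (P.ord (f a)) (∑ j, y a j * v i j) := by
      intro a ha i
      rw [hyv a ((hS a).1 ha).1]
      refine Ge.add (hlog _ (hδr i) (hB i) a ha) ?_
      split_ifs
      · have h6 : Ge P (P.ord (f a)) (f a) := Or.inr le_rfl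
        exact ((Ge.natCast (P := P) (dg a)).mul h6).mono (by omega)
      · exact Ge.zero
    by_cases hA : ∃ c1 ∈ S, P.ord (f c1) = 1 ∧ ¬ Ge P 1 (Da c1 π)
    · obtain ⟨c1, hc1, hc1o, hc1n⟩ := hA
      obtain ⟨t, ht⟩ : ∃ t, t = Da c1 π := ⟨_, rfl⟩
      rw [← ht] at hc1n
      have ht0 : t ≠ 0 := fun h => hc1n (Or.inl h)
      have hto : P.ord t = 0 := by
        have h1 : ¬ 1 ≤ P.ord t := fun h => hc1n (Or.inr h)
        have h2 := (hDr c1 π hπi).resolve_left (by rwa [← ht])
        rw [← ht] at h2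
        omega
      have hti : Ge P 0 t⁻¹ := Or.inr (by rw [P.ord_inv, hto]; omega)
      have h3 := det_est0 P y (fun a j => u a j - Da a π * t⁻¹ * u c1 j) (fun a => P.ord (f a))
        (S.erase c1) (fun a ha => ((hS a).1 (Finset.mem_of_mem_erase ha)).2)
        (fun a _ j => by
          have h4 := ((hDr a π hπi).mul hti).mul (hui c1 j)
          simp only [add_zero] at h4
          exact (hui a j).sub h4)
        (fun a c => (Da a - (Da a π * t⁻¹) • Da c1) (f c))
        (fun a ha c hc => by
          have h4 : ∑ j, y c j * (u a j - Da a π * t⁻¹ * u c1 j) =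
              ∑ j, y c j * u a j - Da a π * t⁻¹ * ∑ j, y c j * u c1 j := by
            rw [Finset.mul_sum, ← Finset.sum_sub_distrib]
            exact Finset.sum_congr rfl fun j _ => by ring
          rw [h4, hyu, hyu, if_neg (Finset.ne_of_mem_erase hc).symm, sub_zero,
            Derivation.sub_apply, Derivation.smul_apply, smul_eq_mul]
          ring)
        (fun a ha c hc => by
          refine hlog _ (fun g hg => ?_) ?_ c (Finset.mem_of_mem_erase hc)
          · rw [Derivation.sub_apply, Derivation.smul_apply, smul_eq_mul]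
            have h4 := ((hDr a π hπi).mul hti).mul (hDr c1 g hg)
            simp only [add_zero] at h4
            exact (hDr a g hg).sub h4
          · rw [Derivation.sub_apply, Derivation.smul_apply, smul_eq_mul, ← ht,
              inv_mul_cancel_right₀ ht0, sub_self]
            exact Ge.zero) v hvi (fun a ha i => hyv' a (Finset.mem_of_mem_erase ha) i)
      refine h3.mono ?_
      rw [← Finset.add_sum_erase S _ hc1, hc1o]
      omega
    · push Not at hA
      have h3 := det_est0 P y (fun a j => u a j + ∑ c ∈ S, Da a (f c) * u c j)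
        (fun a => P.ord (f a)) S (fun a ha => ((hS a).1 ha).2)
        (fun a _ j => by
          refine (hui a j).add (Ge.sum _ _ fun c hc => ?_)
          have h4 := (hDr a _ (hfi c hc)).mul (hui c j)
          rwa [add_zero] at h4)
        (fun a d => ∑ c ∈ S, Da a (f c) * Da c (f d))
        (fun a ha d hd => by
          have h4 : ∑ j, y d j * (u a j + ∑ c ∈ S, Da a (f c) * u c j) =
              ∑ j, y d j * u a j + ∑ c ∈ S, Da a (f c) * ∑ j, y d j * u c j := by
            have h5 : ∑ c ∈ S, Da a (f c) * ∑ j, y d j * u c j =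
                ∑ j, y d j * ∑ c ∈ S, Da a (f c) * u c j := by
              simp only [Finset.mul_sum]
              rw [Finset.sum_comm]
              exact Finset.sum_congr rfl fun j _ => Finset.sum_congr rfl fun c _ => by ring
            rw [h5, ← Finset.sum_add_distrib]
            exact Finset.sum_congr rfl fun j _ => by ring
          have h6 : ∑ c ∈ S, Da a (f c) * ∑ j, y d j * u c j =
              ∑ c ∈ S, Da a (f c) * Da c (f d) - Da a (f d) := by
            have h7 : ∑ c ∈ S, Da a (f c) * ∑ j, y d j * u c j =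
                ∑ c ∈ S, (Da a (f c) * Da c (f d) - if c = d then Da a (f c) else 0) := by
              refine Finset.sum_congr rfl fun c _ => ?_
              rw [hyu]
              split_ifs <;> ring
            rw [h7, Finset.sum_sub_distrib, Finset.sum_ite_eq' S d, if_pos hd]
          rw [h4, h6, hyu]
          ring)
        (fun a ha d hd => by
          refine Ge.sum _ _ fun c hc => ?_
          by_cases hc1 : P.ord (f c) = 1
          · have h4 := (hDr a _ (hfi c hc)).mul (hlog _ (hDr c) (hA c hc hc1) d hd)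
            rwa [zero_add] at h4
          · have h4 := (loss_one (hDr a) (hf0 c hc)).mul (loss_one (hDr c) (hf0 d hd))
            have h5 := ((hS c).1 hc).2
            exact h4.mono (by omega)) v hvi hyv'
      exact h3.mono (by omega)

end

end Pool.Agent.H435.PC
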